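import Pool.Agent.HWar.High

/-!
# HWar.AeGood: for almost all coefficients the integrals over the target tend to `0`

PROOF. Fix `φ` and `h` (there are countably many: `MeasureTheory.ae_all_iff`, `Fin q → ℕ` is countable).
Let `I_r = Icc (4^k P^k - 1) (8^k P^k + 1)`, `Φ_r(t, Y) = ∏_l (‖M2‖/sz)²`, continuous in `(t, Y)` by
`m2_cont`. By Tonelli (`lintegral_lintegral_swap`) and `high`, for large `r`
`∫⁻_t ∫⁻_(Y ∈ I_r) ofReal (gw t * Φ_r(t,Y)) ≤ vol I_r · ofReal (C/P^(k+1)) ≤ ofReal (C (8^k + 2)/P)`,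
which is summable over `r` (`P = 2^r`). Hence (`lintegral_tsum`, or start the sum at `r0`) for almost
every `t` the series `∑_r ∫⁻_(Y ∈ I_r) ofReal (gw t * Φ_r(t,Y))` is finite
(`ae_lt_top'`), so its terms tend to `0` (`ENNReal.tendsto_atTop_zero_of_tsum_ne_top`-like), and
`ofReal (gw t * Φ) = ofReal (gw t) * ofReal Φ` with `0 < gw t < ∞`.
-/

namespace HWar

open Filter Topology MeasureTheory MWg

private theorem AeGood_gw_cont {d : ℕ} : Continuous (gw : (Fin d → ℝ) → ℝ) := by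
  unfold gw
  fun_prop

private theorem AeGood_gw_pos {d : ℕ} (t : Fin d → ℝ) : 0 < gw t := Real.exp_pos _

private theorem AeGood_borel {d : ℕ} (A : ℕ → (Fin d → ℝ) → ENNReal) (hA : ∀ r, Measurable (A r))
    {D : ℝ} (hD : 0 ≤ D) {r0 : ℕ} (hint : ∀ r, r0 ≤ r → ∫⁻ t, A r t ≤ ENNReal.ofReal (D / 2 ^ r)) :
    ∀ᵐ t : Fin d → ℝ, Tendsto (fun r => A r t) atTop (𝓝 0) := by
  have hsum : Summable (fun r : ℕ => D / 2 ^ (r + r0)) := by
    have h1 : (fun r : ℕ => D / 2 ^ (r + r0)) = fun r : ℕ => D / 2 ^ r0 * (1 / 2) ^ r := by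
      funext r
      rw [pow_add, one_div, inv_pow]
      field_simp
    rw [h1]
    exact summable_geometric_two.mul_left _
  have h1 : ∫⁻ t, ∑' r, A (r + r0) t ≠ ⊤ := by
    rw [lintegral_tsum (fun r => (hA (r + r0)).aemeasurable)]
    have h2 : ∑' r, ∫⁻ t, A (r + r0) t ≤ ∑' r, ENNReal.ofReal (D / 2 ^ (r + r0)) :=
      ENNReal.tsum_le_tsum fun r => hint (r + r0) (Nat.le_add_left _ _)
    rw [← ENNReal.ofReal_tsum_of_nonneg (fun r => by positivity) hsum] at h2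
    exact (h2.trans_lt ENNReal.ofReal_lt_top).ne
  have hmeas : Measurable (fun t => ∑' r, A (r + r0) t) :=
    Measurable.tsum fun r => hA (r + r0)
  filter_upwards [ae_lt_top hmeas h1] with t ht
  have h3 := ENNReal.tendsto_atTop_zero_of_tsum_ne_top ht.ne
  exact (tendsto_add_atTop_iff_nat r0).1 h3

theorem ae_good {k d : ℕ} (p : Par k d) (g : ℕ → ℝ) (K : ℕ → ℝ → ℂ) (hK : ∀ r, Continuous (K r))
    {CK : ℝ} (hCK : ∀ r θ, ‖K r θ‖ ≤ CK) :
    ∀ᵐ t : Fin d → ℝ, ∀ φ : Fin p.q → ℕ, Function.Injective φ → (∀ l, φ l < p.L) →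
      ∀ h : ℕ, h ≤ p.u → Tendsto (fun r : ℕ =>
        ∫⁻ Y in Set.Icc (4 ^ k * (XX r) ^ k - 1) (8 ^ k * (XX r) ^ k + 1), ENNReal.ofReal (∏ l,
          (‖M2 (K r) k p.n p.J p.M (φ l) r h (ff k d g t) Y‖ / sz k p.n p.J p.M (φ l) r) ^ 2))
        atTop (𝓝 0) := by
  rw [ae_all_iff]
  intro φ
  rw [eventually_imp_distrib_left]
  intro hφ
  rw [eventually_imp_distrib_left]
  intro hφL
  rw [ae_all_iff]
  intro h
  rw [eventually_imp_distrib_left]
  intro hh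
  obtain ⟨C, hC, hev⟩ := high p g K hK hCK
  obtain ⟨r0, hr0⟩ := eventually_atTop.1 hev
  set Φ : ℕ → (Fin d → ℝ) × ℝ → ℝ := fun r z => ∏ l,
    (‖M2 (K r) k p.n p.J p.M (φ l) r h (ff k d g z.1) z.2‖ / sz k p.n p.J p.M (φ l) r) ^ 2
    with hΦ
  have hΦc : ∀ r, Continuous (Φ r) := by
    intro r
    rw [hΦ]
    refine continuous_finsetProd _ fun l _ => ?_
    exact ((m2_cont (hK r) (hCK r) k d p.n p.J p.M (φ l) r h g).norm.div_const _).pow 2
  have hΦ0 : ∀ r z, 0 ≤ Φ r z := by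
    intro r z
    rw [hΦ]
    exact Finset.prod_nonneg fun l _ => sq_nonneg _
  have hFm : ∀ r, Measurable (fun z : (Fin d → ℝ) × ℝ => ENNReal.ofReal (gw z.1 * Φ r z)) := by
    intro r
    have : Continuous (fun z : (Fin d → ℝ) × ℝ => gw z.1 * Φ r z) :=
      (AeGood_gw_cont.comp continuous_fst).mul (hΦc r)
    exact this.measurable.ennreal_ofReal
  set A : ℕ → (Fin d → ℝ) → ENNReal := fun r t =>
    ∫⁻ Y in Set.Icc (4 ^ k * (XX r) ^ k - 1) (8 ^ k * (XX r) ^ k + 1),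
      ENNReal.ofReal (gw t * Φ r (t, Y)) with hA
  have hAm : ∀ r, Measurable (A r) := fun r => (hFm r).lintegral_prod_right'
  have hint : ∀ r, r0 ≤ r → ∫⁻ t, A r t ≤ ENNReal.ofReal (C * (8 ^ k + 2) / 2 ^ r) := by
    intro r hr
    have h1 : ∫⁻ t, A r t =
        ∫⁻ Y in Set.Icc (4 ^ k * (XX r) ^ k - 1) (8 ^ k * (XX r) ^ k + 1),
          ∫⁻ t, ENNReal.ofReal (gw t * Φ r (t, Y)) := by
      rw [hA]
      exact lintegral_lintegral_swap (f := fun t Y => ENNReal.ofReal (gw t * Φ r (t, Y)))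
        (hFm r).aemeasurable
    have h2 : ∫⁻ Y in Set.Icc (4 ^ k * (XX r) ^ k - 1) (8 ^ k * (XX r) ^ k + 1),
          ∫⁻ t, ENNReal.ofReal (gw t * Φ r (t, Y)) ≤
        ∫⁻ _Y in Set.Icc (4 ^ k * (XX r) ^ k - 1) (8 ^ k * (XX r) ^ k + 1),
          ENNReal.ofReal (C / (XX r) ^ (k + 1)) :=
      lintegral_mono fun Y => hr0 r hr φ hφ hφL h hh Y
    rw [h1]
    refine h2.trans ?_
    rw [setLIntegral_const, Real.volume_Icc]
    have hP : 0 < XX r := by
      unfold XX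
      positivity
    have hP1 : 1 ≤ XX r := by
      unfold XX
      exact one_le_pow₀ (by norm_num)
    have hPk : 1 ≤ (XX r) ^ k := one_le_pow₀ hP1
    rw [← ENNReal.ofReal_mul (by positivity)]
    apply ENNReal.ofReal_le_ofReal
    have h3 : 8 ^ k * (XX r) ^ k + 1 - (4 ^ k * (XX r) ^ k - 1) ≤ (8 ^ k + 2) * (XX r) ^ k := by
      have h4 : 0 ≤ (4 : ℝ) ^ k * (XX r) ^ k := by positivity
      nlinarith
    have h5 : C / (XX r) ^ (k + 1) * ((8 ^ k + 2) * (XX r) ^ k) = C * (8 ^ k + 2) / XX r := by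
      rw [pow_succ]
      field_simp
    have h6 : XX r = 2 ^ r := rfl
    rw [← h6, ← h5]
    exact mul_le_mul_of_nonneg_left h3 (by positivity)
  have hmain := AeGood_borel A hAm (D := C * (8 ^ k + 2)) (by positivity) hint
  filter_upwards [hmain] with t ht
  have hg0 : ENNReal.ofReal (gw t) ≠ 0 := by
    rw [Ne, ENNReal.ofReal_eq_zero, not_le]
    exact AeGood_gw_pos t
  have hg1 : ENNReal.ofReal (gw t) ≠ ⊤ := ENNReal.ofReal_ne_top
  have hB : ∀ r, ∫⁻ Y in Set.Icc (4 ^ k * (XX r) ^ k - 1) (8 ^ k * (XX r) ^ k + 1),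
      ENNReal.ofReal (Φ r (t, Y)) = (ENNReal.ofReal (gw t))⁻¹ * A r t := by
    intro r
    have h1 : A r t = ENNReal.ofReal (gw t) *
        ∫⁻ Y in Set.Icc (4 ^ k * (XX r) ^ k - 1) (8 ^ k * (XX r) ^ k + 1),
          ENNReal.ofReal (Φ r (t, Y)) := by
      rw [hA]
      simp only [ENNReal.ofReal_mul (AeGood_gw_pos t).le]
      refine lintegral_const_mul _ ?_
      exact ((hΦc r).comp (Continuous.prodMk_right t)).measurable.ennreal_ofReal
    rw [h1, ← mul_assoc, ENNReal.inv_mul_cancel hg0 hg1, one_mul]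
  have h7 : Tendsto (fun r => (ENNReal.ofReal (gw t))⁻¹ * A r t) atTop
      (𝓝 ((ENNReal.ofReal (gw t))⁻¹ * 0)) :=
    ENNReal.Tendsto.const_mul ht (Or.inr (ENNReal.inv_ne_top.2 hg0))
  rw [mul_zero] at h7
  refine h7.congr fun r => ?_
  exact (hB r).symm

end HWar
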