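import Pool.Agent.HWar.ChSize
import Pool.Agent.HWar.ChLet

/-!
# HWar.BkSize: sizes of the bulk sets

PROOF. `blk = Ioc ⌊y⌋₊ ⌊2y⌋₊`, `y = be M l i * Q^(N-4j)`, `N = k - 1`, `N - 4j ≥ 1`, `Q = QQ k r → ∞`
(`QQ_tendsto`). The cardinality is `⌊2y⌋₊ - ⌊y⌋₊ ≥ 2y - 1 - y = y - 1 ≥ y/2` for `y ≥ 2`, and
`≤ 2y ≤ P` (`be ≤ 1/256`, `Q^(N-4j) ≤ Q^N = P`). `#Bk = ∏_(j,i) #blk` (`Fintype.card_piFinset`), so
`#Bk ≥ ∏_(j,i) (be M l i/2) Q^(N-4j) ≥ c Q^(M ∑_(j<J) (N-4j)) = c Q^(M (N J - 2 J (J-1)))`, where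
`c = ∏_(j,i) (be M L 0)/2` works for all `l < L` (`be M l i ≥ be M L 0` for `l < L`, `i < M`), and
`∑_(j<J) (N-4j) = N J - 2 J (J-1)` (`Finset.sum_range_id_mul_two`, `4(j) ≤ N`).
`mem_blk`: `Nat.lt_of_floor_lt`, `Nat.floor_le`, `Nat.le_floor`.
-/

namespace HWar

open Filter Topology MWg

private theorem BkSize_XX_pos (r : ℕ) : 0 < XX r := by
  unfold XX
  positivity

private theorem BkSize_QQ_nonneg (k r : ℕ) : 0 ≤ QQ k r := by
  unfold QQ
  exact Real.rpow_nonneg (BkSize_XX_pos r).le _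

private theorem BkSize_be_pos (M l i : ℕ) : 0 < be M l i := by
  unfold be
  positivity

theorem mem_blk {k M l r j i x : ℕ} (hx : x ∈ blk k M l r j i) :
    be M l i * QQ k r ^ (k - 1 - 4 * j) < (x : ℝ) ∧
      (x : ℝ) ≤ 2 * (be M l i * QQ k r ^ (k - 1 - 4 * j)) := by
  unfold blk at hx
  obtain ⟨h1, h2⟩ := Finset.mem_Ioc.1 hx
  have hy : 0 ≤ be M l i * QQ k r ^ (k - 1 - 4 * j) :=
    mul_nonneg (BkSize_be_pos M l i).le (pow_nonneg (BkSize_QQ_nonneg k r) _)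
  refine ⟨Nat.lt_of_floor_lt h1, ?_⟩
  exact (Nat.le_floor_iff (by positivity)).1 h2

theorem be_bounds {M L l i : ℕ} (hl : l < L) (hi : i < M) :
    be M L 0 ≤ be M l i ∧ 0 < be M L 0 ∧ be M l i ≤ 1 / 256 := by
  refine ⟨?_, BkSize_be_pos _ _ _, ?_⟩
  · unfold be
    apply pow_le_pow_of_le_one (by norm_num) (by norm_num)
    have : (l + 1) * M ≤ L * M := Nat.mul_le_mul_right M hl
    nlinarith
  · unfold be
    calc (1 / 4 : ℝ) ^ (4 + l * M + i) ≤ (1 / 4 : ℝ) ^ 4 :=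
          pow_le_pow_of_le_one (by norm_num) (by norm_num) (by omega)
      _ = 1 / 256 := by norm_num

private theorem BkSize_blk_ge {k M l r j i : ℕ}
    (hy : 2 ≤ be M l i * QQ k r ^ (k - 1 - 4 * j)) :
    be M l i * QQ k r ^ (k - 1 - 4 * j) / 2 ≤ ((blk k M l r j i).card : ℝ) := by
  unfold blk
  set y := be M l i * QQ k r ^ (k - 1 - 4 * j) with hydef
  rw [Nat.card_Ioc, Nat.cast_sub (Nat.floor_le_floor (by linarith))]
  have h1 := Nat.lt_floor_add_one (2 * y)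
  have h2 := Nat.floor_le (show (0 : ℝ) ≤ y by linarith)
  linarith

private theorem BkSize_blk_le {k M l r j i : ℕ} :
    ((blk k M l r j i).card : ℝ) ≤ 2 * (be M l i * QQ k r ^ (k - 1 - 4 * j)) := by
  unfold blk
  have hy : 0 ≤ be M l i * QQ k r ^ (k - 1 - 4 * j) :=
    mul_nonneg (BkSize_be_pos M l i).le (pow_nonneg (BkSize_QQ_nonneg k r) _)
  rw [Nat.card_Ioc]
  have h1 : ((⌊2 * (be M l i * QQ k r ^ (k - 1 - 4 * j))⌋₊ -
      ⌊be M l i * QQ k r ^ (k - 1 - 4 * j)⌋₊ : ℕ) : ℝ) ≤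
      ((⌊2 * (be M l i * QQ k r ^ (k - 1 - 4 * j))⌋₊ : ℕ) : ℝ) := by
    exact_mod_cast Nat.sub_le _ _
  exact h1.trans (Nat.floor_le (by positivity))

private theorem BkSize_sum {k J M : ℕ} (hJk : 4 * J < k) :
    ∑ p : Fin J × Fin M, (k - 1 - 4 * (p.1 : ℕ)) = M * ((k - 1) * J - 2 * J * (J - 1)) := by
  rw [Fintype.sum_prod_type]
  simp only [Finset.sum_const, Finset.card_univ, Fintype.card_fin, smul_eq_mul]
  rw [← Finset.mul_sum]
  congr 1
  rw [Fin.sum_univ_eq_sum_range (fun j => k - 1 - 4 * j) J]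
  have key : ∀ m : ℕ, 4 * m < k → ∑ j ∈ Finset.range m, (k - 1 - 4 * j) + 2 * m * (m - 1) =
      (k - 1) * m := by
    intro m
    induction m with
    | zero => intro _; simp
    | succ m ih =>
        intro h
        have ih' := ih (by omega)
        rw [Finset.sum_range_succ]
        have e1 : k - 1 - 4 * m + 4 * m = k - 1 := by omega
        have e2 : 2 * (m + 1) * (m + 1 - 1) = 2 * m * (m - 1) + 4 * m := by
          rcases m with _ | m
          · simp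
          · simp only [Nat.add_sub_cancel]
            ring
        rw [e2, mul_add, mul_one]
        omega
  have := key J hJk
  omega

theorem card_Bk {k J M L : ℕ} (hk : 2 ≤ k) (hJk : 4 * J < k) :
    ∃ c : ℝ, 0 < c ∧ ∀ᶠ r : ℕ in atTop, ∀ l : ℕ, l < L →
      c * QQ k r ^ (M * ((k - 1) * J - 2 * J * (J - 1))) ≤ ((Bk k J M l r).card : ℝ) ∧
      ((Bk k J M l r).card : ℝ) ≤ (XX r) ^ (J * M) := by
  have hb : 0 < be M L 0 := BkSize_be_pos _ _ _
  refine ⟨∏ _p : Fin J × Fin M, (be M L 0 / 2), Finset.prod_pos fun _ _ => by positivity, ?_⟩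
  filter_upwards [(QQ_tendsto hk).eventually_ge_atTop (2 / be M L 0)] with r hr l hl
  have hQ1 : 1 ≤ QQ k r := QQ_one_le hk r
  have hQ0 : 0 ≤ QQ k r := by linarith
  have hcard : ((Bk k J M l r).card : ℝ) =
      ∏ p : Fin J × Fin M, ((blk k M l r p.1 p.2).card : ℝ) := by
    unfold Bk
    rw [Fintype.card_piFinset]
    push_cast
    rfl
  constructor
  · rw [hcard, ← BkSize_sum hJk, ← Finset.prod_pow_eq_pow_sum, ← Finset.prod_mul_distrib]
    refine Finset.prod_le_prod (fun p _ => by positivity) fun p _ => ?_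
    obtain ⟨h1, -, -⟩ := be_bounds hl p.2.2
    have hp := p.1.2
    have h2 : QQ k r ≤ QQ k r ^ (k - 1 - 4 * (p.1 : ℕ)) := by
      calc QQ k r = QQ k r ^ 1 := (pow_one _).symm
        _ ≤ _ := pow_le_pow_right₀ hQ1 (by omega)
    have h3 : 2 ≤ be M L 0 * QQ k r := by
      rw [div_le_iff₀ hb] at hr
      linarith
    have h4 : be M L 0 * QQ k r ≤ be M L 0 * QQ k r ^ (k - 1 - 4 * (p.1 : ℕ)) :=
      mul_le_mul_of_nonneg_left h2 hb.le
    have h5 : be M L 0 * QQ k r ^ (k - 1 - 4 * (p.1 : ℕ)) ≤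
        be M l p.2 * QQ k r ^ (k - 1 - 4 * (p.1 : ℕ)) :=
      mul_le_mul_of_nonneg_right h1 (pow_nonneg hQ0 _)
    refine le_trans ?_ (BkSize_blk_ge (by linarith))
    linarith
  · rw [hcard]
    have hpow : (XX r) ^ (J * M) = ∏ _p : Fin J × Fin M, XX r := by
      rw [Finset.prod_const, Finset.card_univ, Fintype.card_prod, Fintype.card_fin,
        Fintype.card_fin]
    rw [hpow]
    refine Finset.prod_le_prod (fun p _ => Nat.cast_nonneg _) fun p _ => ?_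
    obtain ⟨-, -, h1⟩ := be_bounds hl p.2.2
    refine BkSize_blk_le.trans ?_
    have h2 : QQ k r ^ (k - 1 - 4 * (p.1 : ℕ)) ≤ XX r := by
      rw [← QQ_pow hk r]
      exact pow_le_pow_right₀ hQ1 (by omega)
    have h3 : 0 ≤ QQ k r ^ (k - 1 - 4 * (p.1 : ℕ)) := pow_nonneg hQ0 _
    have h4 : be M l p.2 * QQ k r ^ (k - 1 - 4 * (p.1 : ℕ)) ≤
        1 / 256 * QQ k r ^ (k - 1 - 4 * (p.1 : ℕ)) := mul_le_mul_of_nonneg_right h1 h3
    linarith

/-- The size `sz` is positive. -/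
theorem sz_pos {k n J M L : ℕ} (hk : 2 ≤ k) (hJk : 4 * J < k) :
    ∀ᶠ r : ℕ in atTop, ∀ l : ℕ, l < L → 0 < sz k n J M l r ∧ 0 < ((Zs k n r).card : ℝ) ∧
      0 < ((Bk k J M l r).card : ℝ) := by
  obtain ⟨c, hc, hB⟩ := card_Bk (k := k) (J := J) (M := M) (L := L) hk hJk
  have hJ : ∃ P0 : ℝ, ∀ P, P0 ≤ P → (J0 P).Nonempty :=
    ⟨0, fun P _ => ⟨0, by simp [J0]⟩⟩
  obtain ⟨P0, hP0⟩ := tot_pos (n := k) hk hJ n
  have hX : Tendsto XX atTop atTop := by
    unfold XX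
    exact tendsto_pow_atTop_atTop_of_one_lt (by norm_num)
  filter_upwards [hB, hX.eventually_ge_atTop (max P0 16)] with r hr hXr l hl
  have h1 : 0 < ((Bk k J M l r).card : ℝ) := by
    refine lt_of_lt_of_le ?_ (hr l hl).1
    have : 0 < QQ k r := lt_of_lt_of_le one_pos (QQ_one_le hk r)
    positivity
  have h2 : 0 < ((Zs k n r).card : ℝ) := by
    unfold Zs
    rw [Finset.card_product, Finset.card_product]
    push_cast
    have a1 : 0 < ((chain k J0 n (XX r)).card : ℝ) := hP0 _ ((le_max_left _ _).trans hXr)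
    have a2 : 0 < ((J1 (XX r)).card : ℝ) := by
      have h16 : 16 ≤ XX r := (le_max_right _ _).trans hXr
      have := card_J1_ge h16
      linarith
    positivity
  refine ⟨?_, h2, h1⟩
  unfold sz
  have := BkSize_XX_pos r
  positivity

end HWar
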