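import Pool.Agent.HWar.Decode
import Pool.Agent.HWar.ChSize
import Pool.Agent.HWar.ChLet

/-!
# HWar.DecApp: decoding for the families

PROOF. Apply `decode` with `Γ = (Bool × Fin n) ⊕ Unit`,
`Γ0 = {inl (c, i) : i = 0} ∪ {inr ()}` (3 elements), `Γ1 = {inl (c, i) : i ≤ 4 j0} ∪ {inr ()}`
(at most `2 (4 j0 + 1) + 1 = 8 j0 + 3` elements; filters of `univ`), giving `δ`, `C`, `Q0`; let `r` be so
large that `Q = QQ k r ≥ Q0` (`QQ_tendsto`), `ch_size` holds for `j0`, `n`, `δ` and `β = be M L 0`, and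
`Q^4 ≥ 8`. `Q^(k-1) = XX r` (`QQ_pow`). The letters of `z = ((w, w'), v)`:
`a l (inl (false, i)) = (w.getD i (0,0)).1`, `a l (inl (true, i)) = (w'.getD i (0,0)).1`,
`a l (inr ()) = v`; `zsum φ z = ∑ γ, φ (a γ)` by `chain_sum`. By `chain_letter` and `mem_mainI`
`P_i < a ≤ 16 P_i`, `P_i = (nxt k)^[i] P`; `v ∈ J1 P`: `P/8 < v ≤ P/4` (`mem_J1`).
* `a ≤ 16 P` (`P_i ≤ P`); for `Γ0`: `a > P` or `v > P/8`; for `γ ∉ Γ0`: `i ≥ 1`, `a ≤ 16 P_i ≤ δ P`;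
* for `Γ1`: `i = 0`: `a > P ≥ Q^(N-4j0)`; `1 ≤ i ≤ 4 j0`: `a > P_i ≥ 4 Q^(N-i) ≥ Q^(N-4j0)`;
  `v > P/8 = Q^N/8 ≥ Q^(N-4) ≥ Q^(N-4j0)` as `Q^4 ≥ 8`, `j0 ≥ 1`;
* for `γ ∉ Γ1`: `i ≥ 4 j0 + 1`, `a ≤ 16 P_i ≤ Q^(N-4j0)`;
* separation: let `β Q^(N-4j) ≤ x ≤ Q^(N-4j)/128`, `j < j0`. `i = 0` or `v`: `a ≥ P/8`,
  `x ≤ P/128 ≤ a/16`. `1 ≤ i ≤ 4 j0`, `i ≤ 4j`: `x ≤ Q^(N-4j)/128 ≤ Q^(N-i)/128 ≤ P_i/512 ≤ a/512`.
  `1 ≤ i`, `4 j < i`: `x ≥ β Q^(N-4j) ≥ β Q^(N+1-i) = β Q^(k-i) ≥ 64 P_i ≥ 4 a`. In all cases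
  `|x - a| ≥ a/4`.
The bulk letters: `b l ∈ Bk` means `b l x ∈ blk = Ioc ⌊y⌋₊ ⌊2y⌋₊`, so `y < b l x ≤ 2y`
(`Nat.lt_of_floor_lt`, `Nat.le_floor_iff`/`Nat.floor_le`). `TT r h` gives the bounds for `τ`.
-/

namespace HWar

open Filter Topology MWg

/-- The index type of the non-bulk letters. -/
private abbrev DecApp_G (n : ℕ) : Type := (Bool × Fin n) ⊕ Unit

/-- The level of an index. -/
private def DecApp_lev {n : ℕ} : DecApp_G n → ℕ
  | .inl x => (x.2 : ℕ)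
  | .inr _ => 0

/-- The letter of an index. -/
private def DecApp_let {n : ℕ} (z : Zt) : DecApp_G n → ℕ
  | .inl (false, i) => (z.1.1.getD i (0, 0)).1
  | .inl (true, i) => (z.1.2.getD i (0, 0)).1
  | .inr _ => z.2

private theorem DecApp_card (n t : ℕ) :
    (Finset.univ.filter (fun γ : DecApp_G n => DecApp_lev γ ≤ t)).card ≤ 2 * (t + 1) + 1 := by
  have h1 : (Finset.univ : Finset (DecApp_G (t + 1))).card = 2 * (t + 1) + 1 := by
    rw [Finset.card_univ]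
    simp [DecApp_G]
  rw [← h1]
  apply Finset.card_le_card_of_injOn
    (fun γ : DecApp_G n => match γ with
      | .inl x => (Sum.inl (x.1, (⟨min (x.2 : ℕ) t, by omega⟩ : Fin (t + 1))) : DecApp_G (t + 1))
      | .inr u => Sum.inr u)
  · intro γ _
    exact Finset.mem_coe.2 (Finset.mem_univ _)
  · intro γ hγ γ' hγ' h
    have e1 := (Finset.mem_filter.1 (Finset.mem_coe.1 hγ)).2
    have e2 := (Finset.mem_filter.1 (Finset.mem_coe.1 hγ')).2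
    rcases γ with ⟨c, i⟩ | u
    · rcases γ' with ⟨c', i'⟩ | u'
      · simp only [DecApp_lev] at e1 e2
        simp only [Sum.inl.injEq, Prod.mk.injEq, Fin.mk.injEq] at h
        obtain ⟨h2, h3⟩ := h
        have : (i : ℕ) = (i' : ℕ) := by omega
        rw [h2, Fin.ext this]
      · simp at h
    · rcases γ' with ⟨c', i'⟩ | u'
      · simp at h
      · rfl

private theorem DecApp_sum {k n r : ℕ} {z : Zt} (hz : z ∈ Zs k n r) (φ : ℕ → ℝ) :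
    zsum φ z = ∑ γ : DecApp_G n, φ (DecApp_let z γ) := by
  unfold Zs at hz
  obtain ⟨h1, _⟩ := Finset.mem_product.1 hz
  obtain ⟨h2, h3⟩ := Finset.mem_product.1 h1
  unfold zsum
  rw [chain_sum h2 φ, chain_sum h3 φ, Fintype.sum_sum_type, Fintype.sum_prod_type, Fintype.sum_bool]
  simp only [DecApp_let, Finset.univ_unique, Finset.sum_singleton]
  ring

theorem dec_app {k d : ℕ} (p : Par k d) : ∃ C : ℝ, 0 < C ∧ ∀ᶠ r : ℕ in atTop,
    ∀ φ : Fin p.q → ℕ, Function.Injective φ → (∀ l, φ l < p.L) → ∀ h : ℕ, h ≤ p.u →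
    ∀ z : Fin p.q → Zt, (∀ l, z l ∈ Zs k p.n r) →
    ∀ b b' : Fin p.q → (Fin p.J × Fin p.M → ℕ), (∀ l, b l ∈ Bk k p.J p.M (φ l) r) →
    (∀ l, b' l ∈ Bk k p.J p.M (φ l) r) →
    ∀ τ τ' : Fin p.q → ℝ, (∀ l, τ l ∈ TT r h) → (∀ l, τ' l ∈ TT r h) →
    (∀ i : Fin d, |∑ l, (τ l * (zsum (fun x => (x : ℝ) ^ (k - 1 - (i : ℕ))) (z l) +
        bsum (fun x => (x : ℝ) ^ (k - 1 - (i : ℕ))) (b l)) -
      τ' l * (zsum (fun x => (x : ℝ) ^ (k - 1 - (i : ℕ))) (z l) +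
        bsum (fun x => (x : ℝ) ^ (k - 1 - (i : ℕ))) (b' l)))| ≤ XX r) →
    b = b' ∧ ∀ l, |τ l - τ' l| ≤ C * (XX r / (XX r) ^ p.m1) := by
  classical
  have hk5 := p.hk
  have hk2 : 2 ≤ k := by omega
  have hj0 := p.hj0
  have hj0J := p.hj0J
  have hJk := p.hJk
  obtain ⟨Γ0, hΓ0⟩ : ∃ Γ0 : Finset (DecApp_G p.n),
      Γ0 = Finset.univ.filter (fun γ : DecApp_G p.n => DecApp_lev γ ≤ 0) := ⟨_, rfl⟩
  obtain ⟨Γ1, hΓ1⟩ : ∃ Γ1 : Finset (DecApp_G p.n),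
      Γ1 = Finset.univ.filter (fun γ : DecApp_G p.n => DecApp_lev γ ≤ 4 * p.j0) := ⟨_, rfl⟩
  have hc0 : Γ0.card ≤ 3 := by rw [hΓ0]; exact DecApp_card p.n 0
  have hc1 : Γ1.card ≤ 8 * p.j0 + 3 := by
    rw [hΓ1]
    refine (DecApp_card p.n (4 * p.j0)).trans (by omega)
  have m0 : ∀ γ, γ ∈ Γ0 ↔ DecApp_lev γ ≤ 0 := by
    intro γ
    rw [hΓ0, Finset.mem_filter]
    simp
  have m1 : ∀ γ, γ ∈ Γ1 ↔ DecApp_lev γ ≤ 4 * p.j0 := by
    intro γ
    rw [hΓ1, Finset.mem_filter]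
    simp
  obtain ⟨δ, hδ, C, Q0, hC, hQ0, hdec⟩ := decode p Γ0 Γ1 hc0 hc1
  have hβ : 0 < be p.M p.L 0 := by
    unfold be
    positivity
  refine ⟨C, hC, ?_⟩
  filter_upwards [ch_size p.hk p.j0 p.n p.hst hδ hβ, (QQ_tendsto hk2).eventually_ge_atTop Q0,
    (QQ_tendsto hk2).eventually_ge_atTop 2] with r hch hQr hQ2
  intro φ hφ hφL h hh z hz b b' hb hb' τ τ' hτ hτ' hrel
  have hX := QQ_pow hk2 r
  obtain ⟨Q, hQ⟩ : ∃ Q, Q = QQ k r := ⟨_, rfl⟩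
  obtain ⟨β, hβe⟩ : ∃ β, β = be p.M p.L 0 := ⟨_, rfl⟩
  rw [← hQ] at hX hch hQr hQ2
  rw [← hβe] at hβ hch
  have hQ1 : 1 ≤ Q := by linarith
  have hQpos : 0 < Q := by linarith
  have hXpos : 0 < XX r := by unfold XX; positivity
  -- bounds for the letters
  have hlet : ∀ l (γ : DecApp_G p.n),
      (∃ i : ℕ, i = DecApp_lev γ ∧ i < p.n ∧ (nxt k)^[i] (XX r) < (DecApp_let (z l) γ : ℝ) ∧
        (DecApp_let (z l) γ : ℝ) ≤ 16 * (nxt k)^[i] (XX r)) ∨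
      (DecApp_lev γ = 0 ∧ XX r / 8 < (DecApp_let (z l) γ : ℝ) ∧
        (DecApp_let (z l) γ : ℝ) ≤ XX r / 4) := by
    intro l γ
    have hz' := hz l
    unfold Zs at hz'
    obtain ⟨h1, h4⟩ := Finset.mem_product.1 hz'
    obtain ⟨h2, h3⟩ := Finset.mem_product.1 h1
    rcases γ with ⟨c, i⟩ | u
    · left
      have hpi : 0 ≤ (nxt k)^[(i : ℕ)] (XX r) := by
        have := (hch i i.2).1.1
        linarith
      refine ⟨(i : ℕ), rfl, i.2, ?_⟩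
      cases c with
      | false => exact (mem_mainI hpi).1 (chain_letter h2 i i.2)
      | true => exact (mem_mainI hpi).1 (chain_letter h3 i i.2)
    · right
      exact ⟨rfl, (mem_J1 hXpos.le).1 h4⟩
  -- the top letters are at least `P / 8`
  have htop : ∀ l (γ : DecApp_G p.n), DecApp_lev γ = 0 → XX r / 8 ≤ (DecApp_let (z l) γ : ℝ) := by
    intro l γ h0
    rcases hlet l γ with ⟨i, hi, hin, e1, e2⟩ | ⟨_, e1, e2⟩
    · rw [h0] at hi
      subst hi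
      simp only [Function.iterate_zero, id_eq] at e1
      linarith
    · exact e1.le
  have hpowle : ∀ i j : ℕ, i ≤ j → Q ^ i ≤ Q ^ j := fun i j hij => pow_le_pow_right₀ hQ1 hij
  have hbulk : ∀ (bb : Fin p.q → (Fin p.J × Fin p.M → ℕ)),
      (∀ l, bb l ∈ Bk k p.J p.M (φ l) r) →
      ∀ l x, be p.M (φ l) x.2 * Q ^ (k - 1 - 4 * (x.1 : ℕ)) < (bb l x : ℝ) ∧
      (bb l x : ℝ) ≤ 2 * (be p.M (φ l) x.2 * Q ^ (k - 1 - 4 * (x.1 : ℕ))) := by
    intro bb hbb l x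
    have h1 := hbb l
    unfold Bk at h1
    have h2 := Fintype.mem_piFinset.1 h1 x
    unfold blk at h2
    rw [← hQ] at h2
    have hy : 0 ≤ be p.M (φ l) x.2 * Q ^ (k - 1 - 4 * (x.1 : ℕ)) := by
      unfold be
      positivity
    obtain ⟨h3, h4⟩ := Finset.mem_Ioc.1 h2
    exact ⟨(Nat.floor_lt hy).1 h3, (Nat.le_floor_iff (by positivity)).1 h4⟩
  have res := hdec Q hQr φ hφ hφL (fun l γ => DecApp_let (z l) γ) b b' ?_ ?_ ?_ ?_ ?_ ?_
    (hbulk b hb) (hbulk b' hb') h hh τ τ' ?_ ?_ ?_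
  · rw [hX] at res
    exact res
  · -- 1
    intro l γ
    rw [hX]
    rcases hlet l γ with ⟨i, hi, hin, e1, e2⟩ | ⟨_, e1, e2⟩
    · have := (hch i hin).1.2
      linarith
    · linarith
  · -- 2
    intro l γ hγ
    rw [hX]
    exact htop l γ (Nat.le_zero.1 ((m0 γ).1 hγ))
  · -- 3
    intro l γ hγ
    rw [m0] at hγ
    rcases hlet l γ with ⟨i, hi, hin, e1, e2⟩ | ⟨h0, e1, e2⟩
    · have := (hch i hin).2.1 (by omega)
      linarith
    · omega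
  · -- 4
    intro l γ hγ
    rw [m1] at hγ
    rcases Nat.eq_zero_or_pos (DecApp_lev γ) with h0 | h0
    · refine le_trans ?_ (htop l γ h0)
      rw [← hX]
      have e1 : Q ^ (k - 1) = Q ^ (k - 1 - 4 * p.j0) * Q ^ (4 * p.j0) := by
        rw [← pow_add]
        congr 1
        omega
      have e2 : (8 : ℝ) ≤ Q ^ (4 * p.j0) := by
        calc (8 : ℝ) ≤ 2 ^ 4 := by norm_num
          _ ≤ Q ^ 4 := pow_le_pow_left₀ (by norm_num) hQ2 4
          _ ≤ Q ^ (4 * p.j0) := hpowle _ _ (by omega)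
      have e3 : 0 < Q ^ (k - 1 - 4 * p.j0) := by positivity
      rw [e1]
      nlinarith
    · rcases hlet l γ with ⟨i, hi, hin, e1, e2⟩ | ⟨h00, e1, e2⟩
      · have h3 := ((hch i hin).2.2.1 (by omega) (by omega)).1
        have h4 : Q ^ (k - 1 - 4 * p.j0) ≤ Q ^ (k - 1 - i) := hpowle _ _ (by omega)
        have h5 : 0 < Q ^ (k - 1 - i) := by positivity
        linarith
      · omega
  · -- 5
    intro l γ hγ
    rw [m1] at hγ
    rcases hlet l γ with ⟨i, hi, hin, e1, e2⟩ | ⟨h0, e1, e2⟩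
    · have := (hch i hin).2.2.2 (by omega)
      linarith
    · omega
  · -- 6
    intro l γ hγ j hj x hx1 hx2
    rw [m1] at hγ
    rw [← hβe] at hx1
    have hxle : x ≤ XX r / 128 := by
      have : Q ^ (k - 1 - 4 * j) ≤ Q ^ (k - 1) := hpowle _ _ (by omega)
      rw [hX] at this
      linarith
    rcases Nat.eq_zero_or_pos (DecApp_lev γ) with h0 | h0
    · have e1 := htop l γ h0
      have e2 : (DecApp_let (z l) γ : ℝ) - x ≤ |x - (DecApp_let (z l) γ : ℝ)| := by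
        rw [abs_sub_comm]
        exact le_abs_self _
      linarith
    · rcases hlet l γ with ⟨i, hi, hin, e1, e2⟩ | ⟨h00, e1, e2⟩
      · obtain ⟨g1, g2⟩ := (hch i hin).2.2.1 (by omega) (by omega)
        have hpi : 1 ≤ (nxt k)^[i] (XX r) := (hch i hin).1.1
        rcases le_or_gt i (4 * j) with hij | hij
        · have h3 : Q ^ (k - 1 - 4 * j) ≤ Q ^ (k - 1 - i) := hpowle _ _ (by omega)
          have e3 : (DecApp_let (z l) γ : ℝ) - x ≤ |x - (DecApp_let (z l) γ : ℝ)| := by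
            rw [abs_sub_comm]
            exact le_abs_self _
          linarith
        · have h3 : Q ^ (k - i) ≤ Q ^ (k - 1 - 4 * j) := hpowle _ _ (by omega)
          have h4 : β * Q ^ (k - i) ≤ β * Q ^ (k - 1 - 4 * j) := mul_le_mul_of_nonneg_left h3 hβ.le
          have e3 : x - (DecApp_let (z l) γ : ℝ) ≤ |x - (DecApp_let (z l) γ : ℝ)| := le_abs_self _
          linarith
      · omega
  · -- 8
    intro l
    have := hτ l
    unfold TT at this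
    rw [hX]
    exact ⟨this.1.le, this.2⟩
  · intro l
    have := hτ' l
    unfold TT at this
    rw [hX]
    exact ⟨this.1.le, this.2⟩
  · intro i
    rw [hX]
    refine le_trans (le_of_eq ?_) (hrel i)
    congr 1
    apply Finset.sum_congr rfl
    intro l _
    rw [DecApp_sum (hz l) (fun x => (x : ℝ) ^ (k - 1 - (i : ℕ)))]
    rfl

end HWar
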