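import Pool.Agent.HWar.TestPoly

/-!
# HWar.DecTop: the bulk letters of the levels `< j0` agree

PROOF. Suppose that `b l p ≠ b' l p` for some `l`, `p` with `p.1 < j0`. `W l' = τ l' - τ' l'`. Apply
`test_target` with `ι = (Fin q × Γ) ⊕ ((Fin q × (Fin J × Fin M)) ⊕ (Fin q × (Fin J × Fin M)))`,
`s = univ`, weights `inl (l', γ) ↦ W l'` at `a l' γ`, `inr (inl (l', p')) ↦ τ l'` at `b l' p'`,
`inr (inr (l', p')) ↦ - τ' l'` at `b' l' p'`, the target `t = inr (inl (l, p))` and the zeros (index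
type `ι` as well, `z =` the same atoms)
`K = {inl (l', γ) : γ ∈ Γ1} ∪ {inr .. (l', p') : p'.1 < j0} \ {t}`,
`#K = q #Γ1 + 2 q M j0 - 1 =: n` (`j0 ≤ J`), so `m + n ≤ N` by `hcard`. The partner is the zero
`z_0 = b' l p`: `|x_t - z_0| ≥ 1` (different naturals) and `z_0 ≤ 2 x_t` (`hpart`). All other zeros
satisfy `|x_t - z_j| ≥ z_j/4`. All zeros are `≥ ζ ≥ 1`. Let `Π' = ∏ z_j` over the zeros other than the
partner. Then
* left side `≥ D x_t^m 4^(-n) Π'`;
* `E ∏ (1 + z_j) ≤ E 2^n z_0 Π' ≤ E 2^n 2 x_t Π'`;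
* the atoms other than the target: those with index in `K` contribute `0`; the others are `≤ ζ ≤ z_j`,
  `|x^m ∏ (x - z_j)| ≤ ζ^m 2^n z_0 Π' ≤ ζ^m 2^n 2 x_t Π'`, their weights are at most `2 D P` in
  absolute value, and there are at most `2 q (#Γ + J M)` of them... (`q #Γ` with weight `≤ 2 D P` and
  `2 q J M` with weight `≤ D P`: the sum of the weights is at most `2 q (#Γ + J M) D P`).
So `D x_t^(m-1) ≤ 2 · 8^n (E + 2 q (#Γ + J M) D P ζ^m)` (`m ≥ 1`), and `x_t ≥ x0`, `n ≤ 2qMj0 + q#Γ1`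
contradict `hnum`.
-/

namespace HWar

open Finset

theorem DecTop_core {ι : Type} [Fintype ι] [DecidableEq ι] (ω x : ι → ℝ) (K : Finset ι) (t r : ι)
    {m N : ℕ} {E D ζ W : ℝ} (hE : 0 ≤ E) (hr : r ∈ K) (hcard : m + K.card ≤ N) (hm : 1 ≤ m)
    (h : ∀ m', m ≤ m' → m' ≤ N → |∑ i, ω i * x i ^ m'| ≤ E) (hx : ∀ i, 0 ≤ x i) (hxt : 0 < x t)
    (hD : D ≤ |ω t|) (hζ : 1 ≤ ζ)
    (hsep : ∀ j ∈ K, j ≠ r → x j / 4 ≤ |x t - x j|) (h1 : 1 ≤ |x t - x r|)
    (h2 : x r ≤ 2 * x t) (hz : ∀ j ∈ K, ζ ≤ x j) (hs : ∀ i, i ∉ K → i ≠ t → x i ≤ ζ)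
    (hW : ∑ i, |ω i| ≤ W) :
    D * x t ^ (m - 1) ≤ 2 * 8 ^ K.card * (E + W * ζ ^ m) := by
  have hT := test_target univ ω x x K hcard h (mem_univ t)
  obtain ⟨n, hn⟩ : ∃ n, K.card = n := ⟨_, rfl⟩
  have hne : (K.erase r).card + 1 = n := by
    rw [Finset.card_erase_of_mem hr, hn]
    have : 0 < K.card := Finset.card_pos.mpr ⟨r, hr⟩
    omega
  set P := ∏ j ∈ K.erase r, x j with hP
  have hzpos : ∀ j ∈ K, 0 < x j := fun j hj => by linarith [hz j hj]
  have hPpos : 0 < P := Finset.prod_pos fun j hj => hzpos j (Finset.mem_of_mem_erase hj)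
  have hprodK : ∏ j ∈ K, x j = x r * P := (Finset.mul_prod_erase K x hr).symm
  have hprodle : ∏ j ∈ K, x j ≤ 2 * x t * P := by
    rw [hprodK]
    exact mul_le_mul_of_nonneg_right h2 hPpos.le
  -- lower bound of the left side
  have hlow : P ≤ 4 ^ n * |∏ j ∈ K, (x t - x j)| := by
    rw [Finset.abs_prod, ← Finset.mul_prod_erase K _ hr]
    have e1 : P ≤ 4 ^ (K.erase r).card * ∏ j ∈ K.erase r, |x t - x j| := by
      rw [hP, ← Finset.prod_const, ← Finset.prod_mul_distrib]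
      refine Finset.prod_le_prod (fun j hj => hx j) fun j hj => ?_
      have := hsep j (Finset.mem_of_mem_erase hj) (Finset.ne_of_mem_erase hj)
      linarith
    have e2 : (0 : ℝ) ≤ ∏ j ∈ K.erase r, |x t - x j| := Finset.prod_nonneg fun j _ => abs_nonneg _
    have e3 : (4 : ℝ) ^ (K.erase r).card ≤ 4 ^ n :=
      pow_le_pow_right₀ (by norm_num) (by omega)
    calc P ≤ 4 ^ (K.erase r).card * ∏ j ∈ K.erase r, |x t - x j| := e1
      _ ≤ 4 ^ n * ∏ j ∈ K.erase r, |x t - x j| := mul_le_mul_of_nonneg_right e3 e2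
      _ = 4 ^ n * (1 * ∏ j ∈ K.erase r, |x t - x j|) := by ring
      _ ≤ 4 ^ n * (|x t - x r| * ∏ j ∈ K.erase r, |x t - x j|) := by
          refine mul_le_mul_of_nonneg_left ?_ (by positivity)
          exact mul_le_mul_of_nonneg_right h1 e2
  -- the first term on the right
  have hone : ∏ j ∈ K, (1 + |x j|) ≤ 2 ^ n * (2 * x t * P) := by
    have e1 : ∏ j ∈ K, (1 + |x j|) ≤ ∏ j ∈ K, (2 * x j) := by
      refine Finset.prod_le_prod (fun j _ => by positivity) fun j hj => ?_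
      rw [abs_of_nonneg (hx j)]
      linarith [hz j hj]
    rw [Finset.prod_mul_distrib, Finset.prod_const, hn] at e1
    exact e1.trans (mul_le_mul_of_nonneg_left hprodle (by positivity))
  -- the other atoms
  have hoth : ∀ i ∈ univ.erase t, |ω i| * |x i ^ m * ∏ j ∈ K, (x i - x j)| ≤
      |ω i| * (ζ ^ m * (2 * x t * P)) := by
    intro i hi
    refine mul_le_mul_of_nonneg_left ?_ (abs_nonneg _)
    by_cases hiK : i ∈ K
    · rw [Finset.prod_eq_zero hiK (sub_self _), mul_zero, abs_zero]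
      positivity
    · have hxi := hs i hiK (Finset.ne_of_mem_erase hi)
      rw [abs_mul, Finset.abs_prod, abs_of_nonneg (pow_nonneg (hx i) m)]
      refine mul_le_mul (pow_le_pow_left₀ (hx i) hxi m) ?_ (Finset.prod_nonneg fun j _ => abs_nonneg _)
        (by positivity)
      refine le_trans ?_ hprodle
      refine Finset.prod_le_prod (fun j _ => abs_nonneg _) fun j hj => ?_
      rw [abs_le]
      have e1 := hz j hj
      have e2 := hx i
      constructor <;> linarith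
  have hsum : ∑ i ∈ univ.erase t, |ω i| * |x i ^ m * ∏ j ∈ K, (x i - x j)| ≤
      W * (ζ ^ m * (2 * x t * P)) := by
    refine (Finset.sum_le_sum hoth).trans ?_
    rw [← Finset.sum_mul]
    refine mul_le_mul_of_nonneg_right ?_ (by positivity)
    refine le_trans ?_ hW
    exact Finset.sum_le_sum_of_subset_of_nonneg (Finset.subset_univ _) fun i _ _ => abs_nonneg _
  have hW0 : 0 ≤ W := le_trans (Finset.sum_nonneg fun i _ => abs_nonneg _) hW
  -- combination
  have hleft : D * (x t ^ m * P) ≤ 4 ^ n * (|ω t| * |x t ^ m * ∏ j ∈ K, (x t - x j)|) := by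
    rw [abs_mul, abs_of_nonneg (pow_nonneg (hx t) m)]
    calc D * (x t ^ m * P) ≤ |ω t| * (x t ^ m * (4 ^ n * |∏ j ∈ K, (x t - x j)|)) := by
          refine mul_le_mul hD ?_ (by positivity) (abs_nonneg _)
          exact mul_le_mul_of_nonneg_left hlow (by positivity)
      _ = 4 ^ n * (|ω t| * (x t ^ m * |∏ j ∈ K, (x t - x j)|)) := by ring
  have hmain : D * (x t ^ m * P) ≤
      4 ^ n * (E * (2 ^ n * (2 * x t * P)) + W * (ζ ^ m * (2 * x t * P))) := by
    refine hleft.trans (mul_le_mul_of_nonneg_left ?_ (by positivity))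
    refine hT.trans (add_le_add (mul_le_mul_of_nonneg_left hone hE) hsum)
  have hxm : x t ^ m = x t ^ (m - 1) * x t := by
    rw [← pow_succ]
    congr 1
    omega
  have h2n : W * (ζ ^ m * (2 * x t * P)) ≤ W * (2 ^ n * (ζ ^ m * (2 * x t * P))) := by
    refine mul_le_mul_of_nonneg_left ?_ hW0
    have e1 : (1 : ℝ) ≤ 2 ^ n := one_le_pow₀ (by norm_num)
    have e2 : 0 ≤ ζ ^ m * (2 * x t * P) := by positivity
    nlinarith
  have hfin : (x t * P) * (D * x t ^ (m - 1)) ≤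
      (x t * P) * (2 * 8 ^ n * (E + W * ζ ^ m)) := by
    have e8 : (8 : ℝ) ^ n = 4 ^ n * 2 ^ n := by
      rw [← mul_pow]
      norm_num
    calc (x t * P) * (D * x t ^ (m - 1)) = D * (x t ^ m * P) := by rw [hxm]; ring
      _ ≤ 4 ^ n * (E * (2 ^ n * (2 * x t * P)) + W * (ζ ^ m * (2 * x t * P))) := hmain
      _ ≤ 4 ^ n * (E * (2 ^ n * (2 * x t * P)) + W * (2 ^ n * (ζ ^ m * (2 * x t * P)))) := by
          refine mul_le_mul_of_nonneg_left ?_ (by positivity)
          linarith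
      _ = (x t * P) * (2 * 8 ^ n * (E + W * ζ ^ m)) := by rw [e8]; ring
  rw [hn]
  exact le_of_mul_le_mul_left hfin (by positivity)

private theorem DecTop_cardFin (J M j0 : ℕ) :
    (univ.filter fun p : Fin J × Fin M => (p.1 : ℕ) < j0).card ≤ M * j0 := by
  have e : (univ.filter fun p : Fin J × Fin M => (p.1 : ℕ) < j0) =
      (univ.filter fun i : Fin J => (i : ℕ) < j0) ×ˢ (univ : Finset (Fin M)) := by
    ext p
    simp
  rw [e, Finset.card_product, Finset.card_univ, Fintype.card_fin, mul_comm]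
  refine Nat.mul_le_mul_left _ ?_
  calc (univ.filter fun i : Fin J => (i : ℕ) < j0).card
      ≤ (range j0).card := Finset.card_le_card_of_injOn (fun i => (i : ℕ))
        (fun i hi => by simpa using hi) (fun i _ j _ hij => Fin.ext hij)
    _ = j0 := Finset.card_range j0

private theorem DecTop_cardProd {α : Type} [Fintype α] [DecidableEq α] (q : ℕ) (A : α → Prop)
    [DecidablePred A] :
    (univ.filter fun y : Fin q × α => A y.2).card = q * (univ.filter A).card := by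
  have e : (univ.filter fun y : Fin q × α => A y.2) = (univ : Finset (Fin q)) ×ˢ (univ.filter A) := by
    ext p
    simp
  rw [e, Finset.card_product, Finset.card_univ, Fintype.card_fin]

private theorem DecTop_cardSum {α β : Type} [Fintype α] [Fintype β] (A : α ⊕ β → Prop)
    [DecidablePred A] :
    (univ.filter A).card = (univ.filter fun a => A (Sum.inl a)).card +
      (univ.filter fun b => A (Sum.inr b)).card := by
  classical
  simp only [Finset.card_filter, Fintype.sum_sum_type]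

theorem dec_top {Γ : Type} [Fintype Γ] [DecidableEq Γ] {q J M : ℕ} (Γ1 : Finset Γ)
    {m N j0 : ℕ} {E D P ζ x0 : ℝ} (a : Fin q → Γ → ℕ) (b b' : Fin q → Fin J × Fin M → ℕ)
    (τ τ' : Fin q → ℝ) (hE : 0 ≤ E) (hD : 0 < D) (hP : 1 ≤ P) (hζ : 1 ≤ ζ) (hx0 : 0 < x0)
    (hm : 1 ≤ m)
    (hrel : ∀ m', m ≤ m' → m' ≤ N → |∑ l, ((τ l - τ' l) * (∑ γ, (a l γ : ℝ) ^ m') +
      (τ l * (∑ p, (b l p : ℝ) ^ m') - τ' l * (∑ p, (b' l p : ℝ) ^ m')))| ≤ E)
    (hcard : m + (2 * q * M * j0 + q * Γ1.card) ≤ N + 1) (hj0 : j0 ≤ J)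
    (hsb : ∀ l p l' p', (p.1 : ℕ) < j0 → (p'.1 : ℕ) < j0 → (l, p) ≠ (l', p') →
      (b l' p' : ℝ) / 4 ≤ |(b l p : ℝ) - (b l' p' : ℝ)| ∧
      (b' l' p' : ℝ) / 4 ≤ |(b l p : ℝ) - (b' l' p' : ℝ)|)
    (hsa : ∀ l p l', (p.1 : ℕ) < j0 → ∀ γ ∈ Γ1, (a l' γ : ℝ) / 4 ≤ |(b l p : ℝ) - (a l' γ : ℝ)|)
    (hpart : ∀ l p, (p.1 : ℕ) < j0 → (b' l p : ℝ) ≤ 2 * (b l p : ℝ))
    (hxb : ∀ l p, (p.1 : ℕ) < j0 → x0 ≤ (b l p : ℝ) ∧ ζ ≤ (b l p : ℝ) ∧ ζ ≤ (b' l p : ℝ))
    (hza : ∀ l, ∀ γ ∈ Γ1, ζ ≤ (a l γ : ℝ))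
    (haζ : ∀ l γ, γ ∉ Γ1 → (a l γ : ℝ) ≤ ζ)
    (hbζ : ∀ l p, j0 ≤ (p.1 : ℕ) → (b l p : ℝ) ≤ ζ ∧ (b' l p : ℝ) ≤ ζ)
    (hτ : ∀ l, D ≤ |τ l| ∧ |τ l| ≤ D * P ∧ |τ' l| ≤ D * P)
    (hnum : 2 * 8 ^ (2 * q * M * j0 + q * Γ1.card) *
      (E + ((2 * q * (Fintype.card Γ + J * M) : ℕ) : ℝ) * (D * P) * ζ ^ m) < D * x0 ^ (m - 1)) :
    ∀ l p, (p.1 : ℕ) < j0 → b l p = b' l p := by
  classical
  intro l p hp
  by_contra hne
  -- atoms and weights
  let ω : (Fin q × Γ) ⊕ ((Fin q × (Fin J × Fin M)) ⊕ (Fin q × (Fin J × Fin M))) → ℝ :=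
    Sum.elim (fun y => τ y.1 - τ' y.1) (Sum.elim (fun y => τ y.1) (fun y => - τ' y.1))
  let x : (Fin q × Γ) ⊕ ((Fin q × (Fin J × Fin M)) ⊕ (Fin q × (Fin J × Fin M))) → ℝ :=
    Sum.elim (fun y => (a y.1 y.2 : ℝ)) (Sum.elim (fun y => (b y.1 y.2 : ℝ))
      (fun y => (b' y.1 y.2 : ℝ)))
  let A : (Fin q × Γ) ⊕ ((Fin q × (Fin J × Fin M)) ⊕ (Fin q × (Fin J × Fin M))) → Prop :=
    Sum.elim (fun y => y.2 ∈ Γ1) (Sum.elim (fun y => (y.2.1 : ℕ) < j0)
      (fun y => (y.2.1 : ℕ) < j0))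
  let t : (Fin q × Γ) ⊕ ((Fin q × (Fin J × Fin M)) ⊕ (Fin q × (Fin J × Fin M))) :=
    Sum.inr (Sum.inl (l, p))
  let r : (Fin q × Γ) ⊕ ((Fin q × (Fin J × Fin M)) ⊕ (Fin q × (Fin J × Fin M))) :=
    Sum.inr (Sum.inr (l, p))
  let K := (univ.filter A).erase t
  have htA : t ∈ univ.filter A := by
    simp only [Finset.mem_filter, Finset.mem_univ, true_and]
    exact hp
  have hrK : r ∈ K := by
    refine Finset.mem_erase.mpr ⟨?_, ?_⟩
    · intro h
      exact absurd (Sum.inr.inj h) (by simp)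
    · simp only [Finset.mem_filter, Finset.mem_univ, true_and]
      exact hp
  have hKA : ∀ i ∈ K, A i := fun i hi => (Finset.mem_filter.mp (Finset.mem_of_mem_erase hi)).2
  have hcA : (univ.filter A).card ≤ 2 * q * M * j0 + q * Γ1.card := by
    rw [DecTop_cardSum, DecTop_cardSum]
    have e1 : (univ.filter fun y : Fin q × Γ => A (Sum.inl y)).card = q * Γ1.card := by
      have := DecTop_cardProd (α := Γ) q (fun γ => γ ∈ Γ1)
      rw [Finset.filter_mem_eq_inter, Finset.univ_inter] at this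
      rw [← this]
      refine congrArg Finset.card (Finset.ext fun y => ?_)
      rw [Finset.mem_filter, Finset.mem_filter]
      exact Iff.rfl
    have e2 : (univ.filter fun y : Fin q × (Fin J × Fin M) => A (Sum.inr (Sum.inl y))).card ≤
        q * (M * j0) := by
      have := DecTop_cardProd (α := Fin J × Fin M) q (fun p => (p.1 : ℕ) < j0)
      refine le_trans (le_of_eq ?_) (Nat.mul_le_mul_left _ (DecTop_cardFin J M j0))
      rw [← this]
      refine congrArg Finset.card (Finset.ext fun y => ?_)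
      rw [Finset.mem_filter, Finset.mem_filter]
      exact Iff.rfl
    have e3 : (univ.filter fun y : Fin q × (Fin J × Fin M) => A (Sum.inr (Sum.inr y))).card ≤
        q * (M * j0) := by
      have := DecTop_cardProd (α := Fin J × Fin M) q (fun p => (p.1 : ℕ) < j0)
      refine le_trans (le_of_eq ?_) (Nat.mul_le_mul_left _ (DecTop_cardFin J M j0))
      rw [← this]
      refine congrArg Finset.card (Finset.ext fun y => ?_)
      rw [Finset.mem_filter, Finset.mem_filter]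
      exact Iff.rfl
    have e4 : 2 * q * M * j0 = q * (M * j0) + q * (M * j0) := by ring
    omega
  have hcK : K.card + 1 ≤ 2 * q * M * j0 + q * Γ1.card := by
    have : K.card + 1 = (univ.filter A).card := Finset.card_erase_add_one htA
    omega
  have hrel' : ∀ m', m ≤ m' → m' ≤ N → |∑ i, ω i * x i ^ m'| ≤ E := by
    intro m' h1 h2
    have e : ∑ i, ω i * x i ^ m' = ∑ l, ((τ l - τ' l) * (∑ γ, (a l γ : ℝ) ^ m') +
      (τ l * (∑ p, (b l p : ℝ) ^ m') - τ' l * (∑ p, (b' l p : ℝ) ^ m'))) := by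
      rw [Fintype.sum_sum_type, Fintype.sum_sum_type, Fintype.sum_prod_type, Fintype.sum_prod_type,
        Fintype.sum_prod_type, ← Finset.sum_add_distrib, ← Finset.sum_add_distrib]
      refine Finset.sum_congr rfl fun l _ => ?_
      simp only [ω, x, Sum.elim_inl, Sum.elim_inr]
      rw [Finset.mul_sum, Finset.mul_sum, Finset.mul_sum]
      congr 1
      rw [sub_eq_add_neg, ← Finset.sum_neg_distrib]
      congr 1
      exact Finset.sum_congr rfl fun p _ => by ring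
    rw [e]
    exact hrel m' h1 h2
  have hx : ∀ i, 0 ≤ x i := by
    rintro (y | y | y) <;> simp only [x, Sum.elim_inl, Sum.elim_inr] <;> positivity
  have hsep : ∀ j ∈ K, j ≠ r → x j / 4 ≤ |x t - x j| := by
    rintro (⟨l', γ⟩ | ⟨l', p'⟩ | ⟨l', p'⟩) hj hjr
    · exact hsa l p l' hp γ (hKA _ hj)
    · have hlt : (l, p) ≠ (l', p') := by
        intro h
        apply Finset.ne_of_mem_erase hj
        show Sum.inr (Sum.inl (l', p')) = Sum.inr (Sum.inl (l, p))
        rw [h]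
      exact (hsb l p l' p' hp (hKA _ hj) hlt).1
    · have hlt : (l, p) ≠ (l', p') := by
        intro h
        apply hjr
        show Sum.inr (Sum.inr (l', p')) = Sum.inr (Sum.inr (l, p))
        rw [h]
      exact (hsb l p l' p' hp (hKA _ hj) hlt).2
  have h1 : 1 ≤ |x t - x r| := by
    show (1 : ℝ) ≤ |(b l p : ℝ) - (b' l p : ℝ)|
    have h3 : ((b l p : ℤ) - (b' l p : ℤ)) ≠ 0 := by
      intro h
      apply hne
      omega
    have h4 := Int.one_le_abs h3
    exact_mod_cast h4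
  have hz : ∀ j ∈ K, ζ ≤ x j := by
    rintro (⟨l', γ⟩ | ⟨l', p'⟩ | ⟨l', p'⟩) hj
    · exact hza l' γ (hKA _ hj)
    · exact (hxb l' p' (hKA _ hj)).2.1
    · exact (hxb l' p' (hKA _ hj)).2.2
  have hs : ∀ i, i ∉ K → i ≠ t → x i ≤ ζ := by
    have hnA : ∀ i, i ∉ K → i ≠ t → ¬ A i := by
      intro i hi hit hA
      exact hi (Finset.mem_erase.mpr ⟨hit, Finset.mem_filter.mpr ⟨Finset.mem_univ _, hA⟩⟩)
    rintro (⟨l', γ⟩ | ⟨l', p'⟩ | ⟨l', p'⟩) hj hjt
    · exact haζ l' γ (hnA _ hj hjt)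
    · exact (hbζ l' p' (not_lt.mp (hnA _ hj hjt))).1
    · exact (hbζ l' p' (not_lt.mp (hnA _ hj hjt))).2
  have hW : ∑ i, |ω i| ≤ ((2 * q * (Fintype.card Γ + J * M) : ℕ) : ℝ) * (D * P) := by
    have hb : ∀ l, |τ l - τ' l| ≤ 2 * (D * P) := fun l => by
      refine (abs_sub _ _).trans ?_
      linarith [(hτ l).2.1, (hτ l).2.2]
    have e : ∑ i, |ω i| ≤ ∑ l : Fin q, ((Fintype.card Γ : ℝ) * (2 * (D * P)) +
        (((J * M : ℕ) : ℝ) * (D * P) + ((J * M : ℕ) : ℝ) * (D * P))) := by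
      rw [Fintype.sum_sum_type, Fintype.sum_sum_type, Fintype.sum_prod_type, Fintype.sum_prod_type,
        Fintype.sum_prod_type, ← Finset.sum_add_distrib, ← Finset.sum_add_distrib]
      refine Finset.sum_le_sum fun l _ => ?_
      simp only [ω, Sum.elim_inl, Sum.elim_inr, Finset.sum_const, Finset.card_univ,
        Fintype.card_prod, Fintype.card_fin, nsmul_eq_mul, abs_neg]
      refine add_le_add (mul_le_mul_of_nonneg_left (hb l) (by positivity)) (add_le_add ?_ ?_)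
      · exact mul_le_mul_of_nonneg_left (hτ l).2.1 (by positivity)
      · exact mul_le_mul_of_nonneg_left (hτ l).2.2 (by positivity)
    refine e.trans (le_of_eq ?_)
    rw [Finset.sum_const, Finset.card_univ, Fintype.card_fin, nsmul_eq_mul]
    push_cast
    ring
  have hxt : 0 < x t := lt_of_lt_of_le hx0 (hxb l p hp).1
  have hfin := DecTop_core ω x K t r hE hrK (by omega) hm hrel' hx hxt (hτ l).1 hζ hsep h1
    (hpart l p hp) hz hs hW
  have h5 : D * x0 ^ (m - 1) ≤ D * x t ^ (m - 1) :=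
    mul_le_mul_of_nonneg_left (pow_le_pow_left₀ hx0.le (hxb l p hp).1 _) hD.le
  have h6 : (2 : ℝ) * 8 ^ K.card ≤ 2 * 8 ^ (2 * q * M * j0 + q * Γ1.card) :=
    mul_le_mul_of_nonneg_left (pow_le_pow_right₀ (by norm_num) (by omega)) (by norm_num)
  have h7 : 0 ≤ E + ((2 * q * (Fintype.card Γ + J * M) : ℕ) : ℝ) * (D * P) * ζ ^ m := by
    positivity
  exact absurd (lt_of_le_of_lt (h5.trans (hfin.trans (mul_le_mul_of_nonneg_right h6 h7))) hnum)
    (lt_irrefl _)

end HWar
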