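import Pool.Agent.MWg.Defs

/-!
# HWar: sums of (1 + ε) k values of almost every polynomial of degree k.  Definitions

Notation of `MWg`: `ee x = exp (2 π i x)`, `XX r = 2 ^ r`, `nxt`, `mainI P` = naturals in `(P, 16 P]`,
`J1 P` = naturals in `(P/8, P/4]`, `chain k J0 n P` = chains of `n` letters (lists of pairs `(u, 0)`,
the `i`-th letter is `u ∈ mainI (nxt^[i] P)`).

A tuple of the family `l` consists of
* a chain part `z = ((w, w'), v) ∈ Zs k n r` (two chains with `n` letters each and `v ∈ J1 (XX r)`),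
* a bulk part `b ∈ Bk k J M l r`: the letter `b (j, i)` lies in the interval
  `(be M l i * Q ^ (k-1-4j), 2 * be M l i * Q ^ (k-1-4j)]`, `Q = QQ k r`, `Q ^ (k-1) = XX r`.
The factors `be M l i = 4 ^ (-(4 + l M + i))` are different for different `(l, i)`, `i < M`.
-/

namespace HWar

open MWg

/-- `QQ k r ^ (k - 1) = XX r`. -/
noncomputable def QQ (k r : ℕ) : ℝ := (XX r) ^ ((1 : ℝ) / ((k : ℝ) - 1))

/-- The position factor of the bulk letters `i` of the family `l`. -/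
noncomputable def be (M l i : ℕ) : ℝ := (1 / 4 : ℝ) ^ (4 + l * M + i)

/-- The interval of the bulk letter `(j, i)` of the family `l`. -/
noncomputable def blk (k M l r j i : ℕ) : Finset ℕ :=
  Finset.Ioc ⌊be M l i * QQ k r ^ (k - 1 - 4 * j)⌋₊ ⌊2 * (be M l i * QQ k r ^ (k - 1 - 4 * j))⌋₊

/-- The bulk parts of the family `l`. -/
noncomputable def Bk (k J M l r : ℕ) : Finset (Fin J × Fin M → ℕ) :=
  Fintype.piFinset fun p => blk k M l r p.1 p.2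

/-- The type of the chain parts. -/
abbrev Zt : Type := (List (ℕ × ℕ) × List (ℕ × ℕ)) × ℕ

/-- The chain parts. -/
noncomputable def Zs (k n r : ℕ) : Finset Zt :=
  (chain k J0 n (XX r) ×ˢ chain k J0 n (XX r)) ×ˢ J1 (XX r)

/-- The sum of `φ` over the letters of a chain part. -/
def zsum (φ : ℕ → ℝ) (z : Zt) : ℝ :=
  (z.1.1.map fun p => φ p.1).sum + (z.1.2.map fun p => φ p.1).sum + φ z.2

/-- The sum of `φ` over the letters of a bulk part. -/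
def bsum {J M : ℕ} (φ : ℕ → ℝ) (b : Fin J × Fin M → ℕ) : ℝ := ∑ p, φ (b p)

/-- `x ^ k + g x + ∑ i < d, t i * x ^ (k - 1 - i)`. -/
def ff (k d : ℕ) (g : ℕ → ℝ) (t : Fin d → ℝ) (x : ℕ) : ℝ :=
  (x : ℝ) ^ k + g x + ∑ i : Fin d, t i * (x : ℝ) ^ (k - 1 - (i : ℕ))

/-- The frequencies with `P ^ (-h) < |θ| ≤ P ^ (1-h)`, `P = XX r`. -/
def TT (r h : ℕ) : Set ℝ := {θ | ((XX r) ^ h)⁻¹ < |θ| ∧ |θ| ≤ XX r / (XX r) ^ h}

/-- The exponential sum over the chain parts. -/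
noncomputable def FZ (k n r : ℕ) (f : ℕ → ℝ) (θ : ℝ) : ℂ :=
  ∑ z ∈ Zs k n r, ee (θ * zsum f z)

/-- The exponential sum over the bulk parts of the family `l`. -/
noncomputable def FB (k J M l r : ℕ) (f : ℕ → ℝ) (θ : ℝ) : ℂ :=
  ∑ b ∈ Bk k J M l r, ee (θ * bsum f b)

/-- The signed integral over `TT r h`. -/
noncomputable def M2 (K : ℝ → ℂ) (k n J M l r h : ℕ) (f : ℕ → ℝ) (Y : ℝ) : ℂ :=
  ∫ θ in TT r h, K θ * ee (-(θ * Y)) * FZ k n r f θ * FB k J M l r f θ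

/-- The expected size `#Zs #Bk / P ^ k`. -/
noncomputable def sz (k n J M l r : ℕ) : ℝ :=
  ((Zs k n r).card : ℝ) * ((Bk k J M l r).card : ℝ) / (XX r) ^ k

/-- The parameters: `q` families are used at a time, `L` families in all, `J` levels of bulk letters
with `M` letters each (for every family), `n` letters in every chain, `H = P ^ u`. -/
structure Par (k d : ℕ) where
  (q M J L n u m0 m1 j0 : ℕ)
  hk : 5 ≤ k
  hd : d ≤ k
  hq : 1 ≤ q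
  hM : 1 ≤ M
  hj0 : 1 ≤ j0
  hj0J : j0 ≤ J
  hn1 : 1 ≤ n
  hJk : 4 * J < k
  hL : (u + 1) * (q - 1) < L
  hn : (k : ℝ) * (1 - 1 / (k : ℝ)) ^ n < u
  hu : u + 1 ≤ k
  hst : (4 * j0 + 1) ^ 2 + 2 * (4 * j0 + 1) ≤ k
  c1 : k ≤ m0 + d
  c1' : k ≤ m1 + d
  c2 : m0 + 2 * q * M * j0 + q * (8 * j0 + 3) ≤ k
  c3 : (k - 1) * (u + 1) + 1 ≤ (k - 1 - 4 * J) * (m0 - 1)
  c4 : 2 * k ≤ 4 * m0 + 1
  c5 : 4 * j0 * (m0 + 2 * q * M) + 2 * k ≤ 4 * j0 * (m1 + 2) + 1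
  c6 : (k - 1) * (u + 2) + 4 * J * (m0 + 2 * q * M) + 1 ≤ (k - 1) * m1
  c7 : m1 + q * M + 3 * q ≤ k
  c8 : q * M * (2 * J * (J - 1)) + (k - 1) * (q * (2 * k + 2 - m1) + k + 1) ≤
    q * M * ((k - 1) * J)

/-- The number of summands. -/
def Par.s {k d : ℕ} (p : Par k d) : ℕ := 2 * p.n + 1 + p.J * p.M

/-- Sums of `s` values of `f` at positive integers come arbitrarily close to all large real numbers,
and the integer parts of such sums are all large integers. -/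
def EveryLarge (f : ℕ → ℝ) (s : ℕ) : Prop :=
  (∀ ε : ℝ, 0 < ε → ∃ Y : ℝ, ∀ y : ℝ, Y ≤ y → ∃ x : Fin s → ℕ,
    (∀ i, 0 < x i) ∧ |∑ i, f (x i) - y| < ε) ∧
  (∃ N0 : ℤ, ∀ N : ℤ, N0 ≤ N → ∃ x : Fin s → ℕ, (∀ i, 0 < x i) ∧ ⌊∑ i, f (x i)⌋ = N)

/-- The first half of `EveryLarge`. -/
def Apx (f : ℕ → ℝ) (s : ℕ) : Prop :=
  ∀ ε : ℝ, 0 < ε → ∃ Y : ℝ, ∀ y : ℝ, Y ≤ y → ∃ x : Fin s → ℕ,
    (∀ i, 0 < x i) ∧ |∑ i, f (x i) - y| < ε

end HWar
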