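import Pool.Agent.HWar.Defs

/-!
# HWar.M2Cont: continuity of `M2` in the coefficients and the target

PROOF. `MeasureTheory.continuous_of_dominated`: for fixed `θ` the integrand is continuous in `(t, Y)`
(finite sums of exponentials of polynomials in `(t, Y)`), it is measurable in `θ` (continuous) and
bounded by `CK #Zs #Bk`, integrable on the bounded set `TT r h`.
-/

namespace HWar

open MeasureTheory MWg

theorem ee_norm (x : ℝ) : ‖ee x‖ = 1 := by
  unfold ee
  have : (2 * (Real.pi : ℂ) * x * Complex.I) = ((2 * Real.pi * x : ℝ) : ℂ) * Complex.I := by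
    push_cast
    ring
  rw [this]
  exact Complex.norm_exp_ofReal_mul_I _

theorem ee_add (x y : ℝ) : ee (x + y) = ee x * ee y := by
  unfold ee
  rw [← Complex.exp_add]
  congr 1
  push_cast
  ring

theorem TT_meas (r h : ℕ) : MeasurableSet (TT r h) := by
  unfold TT
  exact (measurableSet_lt measurable_const continuous_abs.measurable).inter
    (measurableSet_le continuous_abs.measurable measurable_const)

theorem XX_one (r : ℕ) : 1 ≤ XX r := one_le_pow₀ (by norm_num)

theorem TT_le {r h : ℕ} {θ : ℝ} (hθ : θ ∈ TT r h) : |θ| ≤ XX r := by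
  refine hθ.2.trans (div_le_self ?_ ?_)
  · exact zero_le_one.trans (XX_one r)
  · exact one_le_pow₀ (XX_one r)

theorem TT_sub_Icc (r h : ℕ) : TT r h ⊆ Set.Icc (-XX r) (XX r) := fun θ hθ => by
  rw [Set.mem_Icc, ← abs_le]
  exact TT_le hθ

theorem TT_finite (r h : ℕ) : volume (TT r h) < ⊤ :=
  (measure_mono (TT_sub_Icc r h)).trans_lt measure_Icc_lt_top

theorem ee_cont : Continuous ee := by
  unfold ee
  fun_prop

theorem FZ_cont (k n r : ℕ) (f : ℕ → ℝ) : Continuous (FZ k n r f) :=
  continuous_finset_sum _ fun _ _ => ee_cont.comp (continuous_id.mul continuous_const)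

theorem FB_cont (k J M l r : ℕ) (f : ℕ → ℝ) : Continuous (FB k J M l r f) :=
  continuous_finset_sum _ fun _ _ => ee_cont.comp (continuous_id.mul continuous_const)

theorem FZ_norm (k n r : ℕ) (f : ℕ → ℝ) (θ : ℝ) : ‖FZ k n r f θ‖ ≤ ((Zs k n r).card : ℝ) := by
  refine (norm_sum_le _ _).trans ?_
  simp [ee_norm]

theorem FB_norm (k J M l r : ℕ) (f : ℕ → ℝ) (θ : ℝ) :
    ‖FB k J M l r f θ‖ ≤ ((Bk k J M l r).card : ℝ) := by
  refine (norm_sum_le _ _).trans ?_
  simp [ee_norm]

/-- `zsum` of `ff` is affine in the coefficients. -/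
theorem zsum_ff (k d : ℕ) (g : ℕ → ℝ) (t : Fin d → ℝ) (z : Zt) :
    zsum (ff k d g t) z = zsum (fun x => (x : ℝ) ^ k + g x) z +
      ∑ i : Fin d, t i * zsum (fun x => (x : ℝ) ^ (k - 1 - (i : ℕ))) z := by
  have key : ∀ w : List (ℕ × ℕ), (w.map fun p => ff k d g t p.1).sum =
      (w.map fun p => (p.1 : ℝ) ^ k + g p.1).sum +
        ∑ i : Fin d, t i * (w.map fun p => (p.1 : ℝ) ^ (k - 1 - (i : ℕ))).sum := by
    intro w
    induction w with
    | nil => simp
    | cons a w ih =>
      simp only [List.map_cons, List.sum_cons]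
      rw [ih]
      simp only [ff, mul_add, Finset.sum_add_distrib]
      ring
  unfold zsum
  rw [key, key]
  simp only [ff, mul_add, Finset.sum_add_distrib]
  ring

/-- `bsum` of `ff` is affine in the coefficients. -/
theorem bsum_ff (k d : ℕ) (g : ℕ → ℝ) (t : Fin d → ℝ) {J M : ℕ} (b : Fin J × Fin M → ℕ) :
    bsum (ff k d g t) b = bsum (fun x => (x : ℝ) ^ k + g x) b +
      ∑ i : Fin d, t i * bsum (fun x => (x : ℝ) ^ (k - 1 - (i : ℕ))) b := by
  unfold bsum ff
  rw [Finset.sum_add_distrib, Finset.sum_comm]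
  congr 1
  refine Finset.sum_congr rfl fun i _ => ?_
  rw [Finset.mul_sum]

theorem m2_cont {K : ℝ → ℂ} (hK : Continuous K) {CK : ℝ} (hCK : ∀ θ, ‖K θ‖ ≤ CK)
    (k d n J M l r h : ℕ) (g : ℕ → ℝ) :
    Continuous fun p : (Fin d → ℝ) × ℝ => M2 K k n J M l r h (ff k d g p.1) p.2 := by
  unfold M2
  refine continuous_of_dominated
    (bound := fun _ => CK * ((Zs k n r).card : ℝ) * ((Bk k J M l r).card : ℝ)) ?_ ?_ ?_ ?_
  · intro p
    refine Continuous.aestronglyMeasurable ?_
    exact ((hK.mul (ee_cont.comp (continuous_id.mul continuous_const).neg)).mul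
      (FZ_cont k n r _)).mul (FB_cont k J M l r _)
  · intro p
    refine Filter.Eventually.of_forall fun θ => ?_
    rw [norm_mul, norm_mul, norm_mul, ee_norm, mul_one]
    have h0 : 0 ≤ CK := (norm_nonneg _).trans (hCK θ)
    exact mul_le_mul (mul_le_mul (hCK θ) (FZ_norm k n r _ θ) (norm_nonneg _) h0)
      (FB_norm k J M l r _ θ) (norm_nonneg _) (mul_nonneg h0 (Nat.cast_nonneg _))
  · have : IsFiniteMeasure (volume.restrict (TT r h)) := ⟨by
      rw [Measure.restrict_apply_univ]
      exact TT_finite r h⟩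
    exact integrable_const _
  · refine Filter.Eventually.of_forall fun θ => ?_
    have hz : ∀ z : Zt, Continuous fun p : (Fin d → ℝ) × ℝ => ee (θ * zsum (ff k d g p.1) z) := by
      intro z
      simp only [zsum_ff]
      refine ee_cont.comp (continuous_const.mul (continuous_const.add ?_))
      exact continuous_finset_sum _ fun i _ =>
        (((continuous_apply i).comp continuous_fst).mul continuous_const)
    have hb : ∀ b : Fin J × Fin M → ℕ,
        Continuous fun p : (Fin d → ℝ) × ℝ => ee (θ * bsum (ff k d g p.1) b) := by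
      intro b
      simp only [bsum_ff]
      refine ee_cont.comp (continuous_const.mul (continuous_const.add ?_))
      exact continuous_finset_sum _ fun i _ =>
        (((continuous_apply i).comp continuous_fst).mul continuous_const)
    refine ((continuous_const.mul (ee_cont.comp (continuous_const.mul continuous_snd).neg)).mul
      ?_).mul ?_
    · exact continuous_finset_sum _ fun z _ => hz z
    · exact continuous_finset_sum _ fun b _ => hb b

end HWar
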