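import Pool.Agent.MWg.Bump

/-!
# HWar.Kernel: if no value is close to `y`, few values are moderately close (signed version)

PROOF. As `Pool/Agent/MWg/Bump.lean` (its `private` lemmas can be copied): `ψ` a smooth bump function,
`ψ = 1` on `[-1/2, 1/2]`, `0` outside `(-1, 1)`, `G = 𝓕 ψ` Schwartz,
`K H θ = G (H θ) - G (ε θ)` for `H ≥ 1` (for all `H`; continuity is clear). The identity
`∑_i H⁻¹ ψ ((S_i - y)/H) = ∫ K H θ ee (-(θ y)) ∑_i ee (θ S_i) dθ` is `hsum` in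
`count_le_integral`; the real part of the left side is `≥ #{i : |S_i - y| ≤ H/2}/H`. Bounds: `G` is
bounded; `G` is Lipschitz, `|Hθ - εθ| ≤ H |θ|` (`ε ≤ 1 ≤ H`); `|ξ|^N0 ‖G ξ‖ ≤ C3`, so
`|θ|^N0 ‖G (Hθ)‖ ≤ C3 / H^N0 ≤ C3`, `|θ|^N0 ‖G (εθ)‖ ≤ C3/ε^N0`.
-/

namespace HWar

open MeasureTheory MWg

private theorem Kernel_ee_cont (x : ℝ) : Continuous fun θ : ℝ => ee (θ * x) := by
  unfold ee
  fun_prop

private theorem Kernel_ee_norm (x : ℝ) : ‖ee x‖ = 1 := by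
  unfold ee
  have : (2 * (Real.pi : ℂ) * x * Complex.I) = ((2 * Real.pi * x : ℝ) : ℂ) * Complex.I := by
    push_cast
    ring
  rw [this]
  exact Complex.norm_exp_ofReal_mul_I _

private theorem Kernel_ee_add (x y : ℝ) : ee (x + y) = ee x * ee y := by
  unfold ee
  rw [← Complex.exp_add]
  congr 1
  push_cast
  ring

open SchwartzMap FourierTransform in
private theorem Kernel_kernel : ∃ (f : ℝ → ℂ) (G : 𝓢(ℝ, ℂ)),
    (∀ x, f x = ∫ ξ : ℝ, ee (ξ * x) * G ξ) ∧ (∀ x, 1 ≤ |x| → f x = 0) ∧ (∀ x, 0 ≤ (f x).re) ∧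
    (∀ x, |x| ≤ 1 / 2 → (f x).re = 1) := by
  let b : ContDiffBump (0 : ℝ) := ⟨1 / 2, 1, by norm_num, by norm_num⟩
  have h1 : HasCompactSupport (fun x => ((b x : ℝ) : ℂ)) :=
    b.hasCompactSupport.comp_left (g := fun r : ℝ => (r : ℂ)) rfl
  have h2 : ContDiff ℝ (⊤ : ℕ∞) (fun x => ((b x : ℝ) : ℂ)) :=
    Complex.ofRealCLM.contDiff.comp b.contDiff
  let f : 𝓢(ℝ, ℂ) := h1.toSchwartzMap h2
  have hf : ∀ x, f x = ((b x : ℝ) : ℂ) := fun x => rfl
  refine ⟨f, 𝓕 f, ?_, ?_, ?_, ?_⟩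
  · intro x
    have e1 : 𝓕⁻ (𝓕 f) = f := FourierTransform.fourierInv_fourier_eq f
    have e2 : f x = 𝓕⁻ ((𝓕 f : 𝓢(ℝ, ℂ)) : ℝ → ℂ) x := by
      rw [← SchwartzMap.fourierInv_coe, e1]
    rw [e2, Real.fourierInv_eq']
    refine integral_congr_ae (Filter.Eventually.of_forall fun ξ => ?_)
    simp only [smul_eq_mul]
    congr 1
    unfold ee
    congr 1
    simp
    ring
  · intro x hx
    rw [hf, b.zero_of_le_dist, Complex.ofReal_zero]
    rw [dist_zero_right, Real.norm_eq_abs]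
    exact hx
  · intro x
    rw [hf, Complex.ofReal_re]
    exact b.nonneg
  · intro x hx
    rw [hf, Complex.ofReal_re]
    refine b.one_of_mem_closedBall ?_
    rw [Metric.mem_closedBall, dist_zero_right, Real.norm_eq_abs]
    exact hx

open SchwartzMap in
private theorem Kernel_scaled {f : ℝ → ℂ} {G : 𝓢(ℝ, ℂ)} (h : ∀ x, f x = ∫ ξ : ℝ, ee (ξ * x) * G ξ)
    {η : ℝ} (hη : 0 < η) (x : ℝ) :
    ((η⁻¹ : ℝ) : ℂ) * f (x / η) = ∫ θ : ℝ, ee (θ * x) * G (η * θ) := by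
  have e1 := Measure.integral_comp_mul_left (fun y : ℝ => ee (y * (x / η)) * G y) η
  have e2 : (∫ θ : ℝ, ee (θ * x) * G (η * θ)) = ∫ θ : ℝ, ee (η * θ * (x / η)) * G (η * θ) := by
    refine integral_congr_ae (Filter.Eventually.of_forall fun θ => ?_)
    simp only
    congr 2
    field_simp
  rw [e2, e1, ← h, abs_of_pos (inv_pos.2 hη)]
  rfl

open SchwartzMap in
private theorem Kernel_int {G : 𝓢(ℝ, ℂ)} {η : ℝ} (hη : 0 < η) (x : ℝ) :
    Integrable (fun θ : ℝ => ee (θ * x) * G (η * θ)) := by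
  have h1 : Integrable (fun θ : ℝ => G (η * θ)) := (G.integrable (μ := volume)).comp_mul_left' hη.ne'
  refine h1.mono ?_ ?_
  · exact ((Kernel_ee_cont x).mul (G.continuous.comp (continuous_const.mul continuous_id))).aestronglyMeasurable
  · refine Filter.Eventually.of_forall fun θ => ?_
    rw [norm_mul, Kernel_ee_norm, one_mul]

open SchwartzMap in
private theorem Kernel_diff (N0 : ℕ) (G : 𝓢(ℝ, ℂ)) {ε : ℝ} (hε : 0 < ε) (hε1 : ε ≤ 1) :
    ∃ C : ℝ, 0 < C ∧ ∀ H θ : ℝ, 1 ≤ H → ‖G (H * θ) - G (ε * θ)‖ ≤ C ∧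
      ‖G (H * θ) - G (ε * θ)‖ ≤ C * (H * |θ|) ∧ |θ| ^ N0 * ‖G (H * θ) - G (ε * θ)‖ ≤ C := by
  obtain ⟨C0, h0, hC0⟩ := G.decay 0 0
  obtain ⟨C1, h1, hC1⟩ := G.decay 0 1
  obtain ⟨C3, h3, hC3⟩ := G.decay N0 0
  have b0 : ∀ x, ‖G x‖ ≤ C0 := fun x => by
    have := hC0 x
    rwa [pow_zero, one_mul, norm_iteratedFDeriv_zero] at this
  have b3 : ∀ x : ℝ, |x| ^ N0 * ‖G x‖ ≤ C3 := fun x => by
    have := hC3 x
    rwa [norm_iteratedFDeriv_zero, Real.norm_eq_abs] at this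
  have b1 : ∀ x y : ℝ, ‖G x - G y‖ ≤ C1 * |x - y| := fun x y => by
    refine Convex.norm_image_sub_le_of_norm_fderiv_le (𝕜 := ℝ) (s := Set.univ)
      (fun z _ => G.differentiableAt) ?_ convex_univ (Set.mem_univ y) (Set.mem_univ x)
    intro z _
    have := hC1 z
    rwa [pow_zero, one_mul, norm_iteratedFDeriv_one] at this
  refine ⟨C1 + 2 * C0 + C3 * (1 + (ε ^ N0)⁻¹), by positivity, fun H θ hH => ?_⟩
  have hH0 : 0 < H := by linarith
  set C : ℝ := C1 + 2 * C0 + C3 * (1 + (ε ^ N0)⁻¹) with hC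
  have hCpos : 0 < C := by positivity
  have p0 : 0 ≤ C3 * (1 + (ε ^ N0)⁻¹) := by positivity
  refine ⟨?_, ?_, ?_⟩
  · refine (norm_sub_le _ _).trans ?_
    linarith [b0 (H * θ), b0 (ε * θ)]
  · refine (b1 _ _).trans ?_
    have e : H * θ - ε * θ = (H - ε) * θ := by ring
    rw [e, abs_mul, abs_of_nonneg (by linarith)]
    exact mul_le_mul (by linarith) (mul_le_mul_of_nonneg_right (by linarith) (abs_nonneg _))
      (mul_nonneg (by linarith) (abs_nonneg _)) hCpos.le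
  · have d1 : |θ| ^ N0 * ‖G (H * θ)‖ ≤ C3 := by
      have := b3 (H * θ)
      rw [abs_mul, abs_of_pos hH0, mul_pow] at this
      have hH3 : 1 ≤ H ^ N0 := one_le_pow₀ hH
      have e : 0 ≤ |θ| ^ N0 * ‖G (H * θ)‖ := by positivity
      nlinarith
    have d2 : |θ| ^ N0 * ‖G (ε * θ)‖ ≤ C3 * (ε ^ N0)⁻¹ := by
      have := b3 (ε * θ)
      rw [abs_mul, abs_of_pos hε, mul_pow] at this
      rw [← div_eq_mul_inv, le_div_iff₀ (by positivity)]
      linarith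
    have hθ : 0 ≤ |θ| ^ N0 := by positivity
    calc |θ| ^ N0 * ‖G (H * θ) - G (ε * θ)‖ ≤ |θ| ^ N0 * (‖G (H * θ)‖ + ‖G (ε * θ)‖) :=
          mul_le_mul_of_nonneg_left (norm_sub_le _ _) hθ
      _ = |θ| ^ N0 * ‖G (H * θ)‖ + |θ| ^ N0 * ‖G (ε * θ)‖ := by ring
      _ ≤ C3 + C3 * (ε ^ N0)⁻¹ := add_le_add d1 d2
      _ ≤ C := by
        rw [hC]
        have : C3 * (1 + (ε ^ N0)⁻¹) = C3 + C3 * (ε ^ N0)⁻¹ := by ring
        linarith

theorem kernel (N0 : ℕ) {ε : ℝ} (hε : 0 < ε) (hε1 : ε ≤ 1) :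
    ∃ (C : ℝ) (K : ℝ → ℝ → ℂ), 0 < C ∧ (∀ H, Continuous (K H)) ∧
      (∀ H θ : ℝ, 1 ≤ H → ‖K H θ‖ ≤ C ∧ ‖K H θ‖ ≤ C * (H * |θ|) ∧ |θ| ^ N0 * ‖K H θ‖ ≤ C) ∧
      ∀ (ι : Type) (s : Finset ι) (S : ι → ℝ) (y H : ℝ), 1 ≤ H → (∀ i ∈ s, ε ≤ |S i - y|) →
        ((open Classical in (s.filter fun i => |S i - y| ≤ H / 2).card : ℕ) : ℝ) / H ≤
          ‖∫ θ : ℝ, K H θ * ee (-(θ * y)) * ∑ i ∈ s, ee (θ * S i)‖ := by
  obtain ⟨f, G, hinv, hzero, hnn, hone⟩ := Kernel_kernel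
  obtain ⟨C, hC, hd⟩ := Kernel_diff N0 G hε hε1
  refine ⟨C, fun H θ => G (H * θ) - G (ε * θ), hC, fun H => ?_, hd, fun ι s S y H hH hs => ?_⟩
  · exact (G.continuous.comp (continuous_const.mul continuous_id)).sub
      (G.continuous.comp (continuous_const.mul continuous_id))
  have hH0 : 0 < H := by linarith
  have key : ∀ i ∈ s, ((H⁻¹ : ℝ) : ℂ) * f ((S i - y) / H) =
      ∫ θ : ℝ, ee (θ * (S i - y)) * (G (H * θ) - G (ε * θ)) := by
    intro i hi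
    have e1 := Kernel_scaled hinv hH0 (S i - y)
    have e2 := Kernel_scaled hinv hε (S i - y)
    have e3 : f ((S i - y) / ε) = 0 := by
      refine hzero _ ?_
      rw [abs_div, abs_of_pos hε, le_div_iff₀ hε, one_mul]
      exact hs i hi
    rw [e3, mul_zero] at e2
    have e4 : (∫ θ : ℝ, ee (θ * (S i - y)) * (G (H * θ) - G (ε * θ))) =
        (∫ θ : ℝ, ee (θ * (S i - y)) * G (H * θ)) - ∫ θ : ℝ, ee (θ * (S i - y)) * G (ε * θ) := by
      rw [← integral_sub (Kernel_int hH0 _) (Kernel_int hε _)]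
      refine integral_congr_ae (Filter.Eventually.of_forall fun θ => ?_)
      simp only
      ring
    rw [e4, ← e2, sub_zero, e1]
  have hsum : ∑ i ∈ s, ((H⁻¹ : ℝ) : ℂ) * f ((S i - y) / H) =
      ∫ θ : ℝ, (G (H * θ) - G (ε * θ)) * ee (-(θ * y)) * ∑ i ∈ s, ee (θ * S i) := by
    rw [Finset.sum_congr rfl key, ← integral_finset_sum]
    · refine integral_congr_ae (Filter.Eventually.of_forall fun θ => ?_)
      simp only
      rw [Finset.mul_sum]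
      refine Finset.sum_congr rfl fun i _ => ?_
      have e : θ * (S i - y) = -(θ * y) + θ * S i := by ring
      rw [e, Kernel_ee_add]
      ring
    · intro i _
      have h1 := (Kernel_int (G := G) hH0 (S i - y)).sub (Kernel_int (G := G) hε (S i - y))
      refine h1.congr (Filter.Eventually.of_forall fun θ => ?_)
      simp only [Pi.sub_apply]
      ring
  rw [← hsum]
  refine le_trans ?_ (Complex.re_le_norm _)
  rw [Complex.re_sum, div_eq_mul_inv, Finset.card_filter, Nat.cast_sum, Finset.sum_mul]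
  refine Finset.sum_le_sum fun i _ => ?_
  rw [Complex.re_ofReal_mul]
  split_ifs with h
  · have h1 : |(S i - y) / H| ≤ 1 / 2 := by
      rw [abs_div, abs_of_pos hH0, div_le_iff₀ hH0]
      linarith
    rw [hone _ h1]
    simp
  · have h1 := hnn ((S i - y) / H)
    rw [Nat.cast_zero, zero_mul]
    positivity

end HWar
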