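import Pool.Agent.HWar.LowerS

/-!
# HWar.LowerF: the lower bound for the number of values, for the polynomials of `HWar`
-/

namespace HWar

open Filter Topology

theorem lowerF_lim {k d : ℕ} (hk : 1 ≤ k) {g : Polynomial ℝ} (hg : g.natDegree < k)
    (t : Fin d → ℝ) :
    Tendsto (fun x : ℕ => ff k d (fun x => g.eval (x : ℝ)) t x / (x : ℝ) ^ k) atTop (𝓝 1) := by
  have h1 : ∀ P : Polynomial ℝ, P.natDegree < k →
      Tendsto (fun x : ℕ => P.eval (x : ℝ) / (x : ℝ) ^ k) atTop (𝓝 0) := by
    intro P hP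
    have h2 := Polynomial.div_tendsto_zero_of_degree_lt P (Polynomial.X ^ k : Polynomial ℝ) (by
      rw [Polynomial.degree_X_pow]
      exact (Polynomial.degree_le_natDegree).trans_lt (by exact_mod_cast hP))
    have h3 := h2.comp (tendsto_natCast_atTop_atTop (R := ℝ))
    refine h3.congr fun x => ?_
    simp
  have h4 : ∀ i : Fin d, Tendsto (fun x : ℕ => t i * (x : ℝ) ^ (k - 1 - (i : ℕ)) / (x : ℝ) ^ k)
      atTop (𝓝 0) := by
    intro i
    have := h1 (Polynomial.C (t i) * Polynomial.X ^ (k - 1 - (i : ℕ))) (by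
      refine (Polynomial.natDegree_C_mul_X_pow_le _ _).trans_lt ?_
      omega)
    refine this.congr fun x => ?_
    simp
  have h5 : Tendsto (fun x : ℕ => (x : ℝ) ^ k / (x : ℝ) ^ k) atTop (𝓝 1) := by
    refine tendsto_const_nhds.congr' ?_
    filter_upwards [eventually_gt_atTop 0] with x hx
    have : (x : ℝ) ^ k ≠ 0 := by positivity
    exact (div_self this).symm
  have h6 := (h5.add (h1 g hg)).add (tendsto_finset_sum Finset.univ fun i _ => h4 i)
  simp only [add_zero, Finset.sum_const_zero] at h6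
  refine h6.congr fun x => ?_
  unfold ff
  rw [add_div, add_div, Finset.sum_div]

theorem lowerF {k d : ℕ} (hk : 1 ≤ k) {g : Polynomial ℝ} (hg : g.natDegree < k)
    (t : Fin d → ℝ) {s : ℕ} (h : Apx (ff k d (fun x => g.eval (x : ℝ)) t) s) : k < s :=
  lower_s hk one_pos (lowerF_lim hk hg t) h

end HWar
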