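import Pool.Agent.HWar.Defs

/-!
# HWar.ParEx: existence of the parameters with few summands

PROOF. Choose a natural number `t ≥ 1` with `1/t ≤ ε` (then all the requirements below hold for
large `k`), and put
`q = 8t`, `v = ⌊k/(16t)⌋`, `u = k - v`, `n = 2v`, `B = 4096 q t²`, `M = ⌊k/B⌋`, `J = B + 8192 t²`,
`j0 = 32t`, `m0 = u + 4J + 3`, `m1 = (k-1) - qM - 3q`, `L = (u+1)(q-1) + 1`.
* `hn`: `(1-1/k)^n ≤ 1/(1+n/k)` (`(1-1/k)^n (1+1/k)^n ≤ 1` and Bernoulli), so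
  `k (1-1/k)^n ≤ k²/(k+2v) < k - v` iff `v k - 2 v² > 0`, i.e. `k > 2v`.
* `c1`: `d ≥ εk ≥ k/t ≥ v`. `c1'`: `d ≥ 1 + qM + 3q`, `qM ≤ k/(4096t²)`.
* `c2`: `m0 + 2qMj0 + q(8j0+3) ≤ k - v + 4J + 3 + 64tqM + ..`, `64 t q M ≤ k/(64t)`, `v ≥ k/(16t) - 1`.
* `c3`: the difference of the sides is `4J(v - 4J - 3) + (k-1) - 1 ≥ 0`.
* `c4`: `m0 ≥ k - v ≥ k/2`.
* `c5`: `m1 + 2 - m0 - 2qM = v - 3qM - 3q - 4J - 2`, and `128t` times this is `≥ 2k` for large `k`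
  (`128 t v ≥ 8k - 128t`, `384 t q M ≤ 384 k/(4096 t)`).
* `c6`: `m1 - u - 2 = v - qM - 3q - 3 ≥ k/(32t)` for large `k`, and
  `(k-1) k/(32t) ≥ 4J · 2k + 1` for large `k` (`m0 + 2qM ≤ 2k`).
* `c7`: `m1 + qM + 3q = k - 1`.
* `c8`: `2k + 2 - m1 = k + 3 + qM + 3q`, `M ≥ k/B - 1`, `J/B = 1 + 1/(4t)`, `1/q = 1/(8t)`,
  `q/B = 1/(4096t²)`: `qM(k-1)J ≥ q(k-1)k(1 + 1/(4t)) - O(k)` and the left side is
  `≤ q(k-1)k(1 + 1/(8t) + 1/(4096t²)) + O(k)`.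
* `s = 2n + 1 + JM ≤ 4v + 1 + (1 + 1/(4t))k ≤ (1 + 1/(2t))k + 1 ≤ (1+ε)k` for large `k`.
All requirements for large `k` are explicit polynomial inequalities; e.g. assume `k ≥ k0` with an explicit large `k0`
(a polynomial in `t`, say `k0 = 10^20 t^20`) and write `k = 16 t v + a = B M + b`, `a < 16t`, `b < B`.
(`1/t ≤ ε` can be replaced by `100/t ≤ ε` or whatever is convenient, and the choice of the parameters
may be changed.)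
-/

namespace HWar

private lemma ParEx_hn {k v : ℕ} (hv : 1 ≤ v) (hvk : 2 * v < k) :
    (k : ℝ) * (1 - 1 / (k : ℝ)) ^ (2 * v) < ((k - v : ℕ) : ℝ) := by
  have hk0 : (0:ℝ) < k := by exact_mod_cast (by omega : 0 < k)
  have hk1 : (1:ℝ) ≤ k := by exact_mod_cast (by omega : 1 ≤ k)
  have hv1 : (1:ℝ) ≤ v := by exact_mod_cast hv
  have hvk' : 2 * (v:ℝ) < k := by exact_mod_cast hvk
  have hi : 1 / (k:ℝ) ≤ 1 := by rw [div_le_one hk0]; exact hk1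
  have hi0 : 0 < 1 / (k:ℝ) := by positivity
  have h1 : (1 - 1 / (k : ℝ)) ^ (2 * v) * (1 + 1 / (k : ℝ)) ^ (2 * v) ≤ 1 := by
    rw [← mul_pow]
    apply pow_le_one₀
    · exact mul_nonneg (by linarith) (by linarith)
    · have := mul_pos hi0 hi0
      linarith
  have h2 : 1 + (2 * v : ℝ) * (1 / (k:ℝ)) ≤ (1 + 1 / (k : ℝ)) ^ (2 * v) := by
    have := one_add_mul_le_pow (a := 1 / (k:ℝ)) (by linarith) (2 * v)
    push_cast at this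
    linarith
  have h3 : 0 ≤ (1 - 1 / (k : ℝ)) ^ (2 * v) := pow_nonneg (by linarith) _
  have h4 : (1 - 1 / (k : ℝ)) ^ (2 * v) * (1 + (2 * v : ℝ) * (1 / (k:ℝ))) ≤ 1 :=
    (mul_le_mul_of_nonneg_left h2 h3).trans h1
  generalize (1 - 1 / (k : ℝ)) ^ (2 * v) = y at h3 h4 ⊢
  have h5 : y * (k + 2 * v) ≤ k := by
    have h6 : y * (1 + (2 * v : ℝ) * (1 / (k:ℝ))) * k ≤ 1 * k :=
      mul_le_mul_of_nonneg_right h4 hk0.le
    have e : y * (1 + (2 * v : ℝ) * (1 / (k:ℝ))) * k = y * (k + 2 * v) := by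
      field_simp
    linarith
  rw [Nat.cast_sub (by omega)]
  by_contra h
  push Not at h
  have h7 : ((k:ℝ) - v) * (k + 2 * v) ≤ k * y * (k + 2 * v) :=
    mul_le_mul_of_nonneg_right h (by positivity)
  have h8 : (k:ℝ) * (y * (k + 2 * v)) ≤ k * k := mul_le_mul_of_nonneg_left h5 hk0.le
  have h9 : 0 < (v:ℝ) * (k - 2 * v) := mul_pos (by linarith) (by linarith)
  have e1 : (k:ℝ) * y * (k + 2 * v) = k * (y * (k + 2 * v)) := by ring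
  have e2 : ((k:ℝ) - v) * (k + 2 * v) = k * k + v * (k - 2 * v) := by ring
  linarith

/-- the bounds for `v` and `M` in terms of `x = k / t ^ 3` -/
private lemma ParEx_bd {t k v M x : ℝ} (T0 : 0 < t) (hx : k = x * t ^ 3)
    (hk : 10 ^ 8 * t ^ 4 ≤ k)
    (v1 : 16 * t * v ≤ k) (v2 : k < 16 * t * (v + 1)) (M1 : 32768 * t ^ 3 * M ≤ k)
    (M2 : k < 32768 * t ^ 3 * (M + 1)) :
    10 ^ 8 * t ≤ x ∧ v ≤ x * t ^ 2 / 16 ∧ x * t ^ 2 / 16 < v + 1 ∧ M ≤ x / 32768 ∧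
      x / 32768 < M + 1 := by
  rw [hx] at hk v1 v2 M1 M2
  refine ⟨?_, ?_, ?_, ?_, ?_⟩
  · have : (10 ^ 8 * t) * t ^ 3 ≤ x * t ^ 3 := by linarith
    exact le_of_mul_le_mul_right this (by positivity)
  · have : (16 * v) * t ≤ (x * t ^ 2) * t := by linarith
    have := le_of_mul_le_mul_right this T0
    linarith
  · have : (x * t ^ 2) * t < (16 * (v + 1)) * t := by linarith
    have := lt_of_mul_lt_mul_right this T0.le
    linarith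
  · have : (32768 * M) * t ^ 3 ≤ x * t ^ 3 := by linarith
    have := le_of_mul_le_mul_right this (by positivity)
    linarith
  · have : x * t ^ 3 < (32768 * (M + 1)) * t ^ 3 := by linarith
    have := lt_of_mul_lt_mul_right this (by positivity)
    linarith

/-- the products -/
private lemma ParEx_pr {t v M x : ℝ} (T1 : 1 ≤ t) (hx1 : 10 ^ 8 * t ≤ x)
    (v2 : x * t ^ 2 / 16 < v + 1) (M1 : M ≤ x / 32768) :
    (t ≤ t ^ 2 ∧ t ^ 2 ≤ t ^ 3 ∧ t ^ 3 ≤ t ^ 4) ∧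
    (x ≤ x * t ∧ x * t ≤ x * t ^ 2 ∧ x * t ^ 2 ≤ x * t ^ 3) ∧
    (10 ^ 8 * t ^ 2 ≤ x * t ∧ 10 ^ 8 * t ^ 3 ≤ x * t ^ 2 ∧ 10 ^ 8 * t ^ 4 ≤ x * t ^ 3) ∧
    (t * M ≤ x * t / 32768 ∧ t ^ 2 * M ≤ x * t ^ 2 / 32768 ∧ t ^ 3 * M ≤ x * t ^ 3 / 32768) ∧
    x * t ^ 3 / 16 ≤ t * v + t := by
  have T0 : 0 < t := by linarith
  have x0 : 0 < x := by linarith
  have A1 : t ≤ t ^ 2 := by
    have := mul_le_mul_of_nonneg_right T1 T0.le
    linarith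
  have A2 : t ^ 2 ≤ t ^ 3 := by
    have := mul_le_mul_of_nonneg_right T1 (pow_pos T0 2).le
    linarith
  have A3 : t ^ 3 ≤ t ^ 4 := by
    have := mul_le_mul_of_nonneg_right T1 (pow_pos T0 3).le
    linarith
  refine ⟨⟨A1, A2, A3⟩, ⟨?_, ?_, ?_⟩, ⟨?_, ?_, ?_⟩, ⟨?_, ?_, ?_⟩, ?_⟩
  · have := mul_le_mul_of_nonneg_left T1 x0.le
    linarith
  · exact mul_le_mul_of_nonneg_left A1 x0.le
  · exact mul_le_mul_of_nonneg_left A2 x0.le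
  · have := mul_le_mul_of_nonneg_right hx1 T0.le
    linarith
  · have := mul_le_mul_of_nonneg_right hx1 (pow_pos T0 2).le
    linarith
  · have := mul_le_mul_of_nonneg_right hx1 (pow_pos T0 3).le
    linarith
  · have := mul_le_mul_of_nonneg_left M1 T0.le
    linarith
  · have := mul_le_mul_of_nonneg_left M1 (pow_pos T0 2).le
    linarith
  · have := mul_le_mul_of_nonneg_left M1 (pow_pos T0 3).le
    linarith
  · have := mul_le_mul_of_nonneg_left v2.le T0.le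
    linarith

/-- all the inequalities with real variables -/
private lemma ParEx_real {t v M x J : ℝ} (T1 : 1 ≤ t)
    (hx1 : 10 ^ 8 * t ≤ x)
    (v1 : v ≤ x * t ^ 2 / 16) (v2 : x * t ^ 2 / 16 < v + 1) (M1 : M ≤ x / 32768)
    (M2 : x / 32768 < M + 1) (hJ : J = 32768 * t ^ 3 + 8192 * t ^ 2) :
    (1 ≤ v ∧ 2 * v < x * t ^ 3 ∧ 1 ≤ M ∧ 4 * J + 3 ≤ v ∧ 8 * t * M + 24 * t + 1 ≤ x * t ^ 3) ∧
    (5 ≤ x * t ^ 3 ∧ 32 * t ≤ J ∧
      (4 * (32 * t) + 1) ^ 2 + 2 * (4 * (32 * t) + 1) ≤ x * t ^ 3) ∧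
    (v ≤ x * t ^ 2 ∧ 8 * t * M + 24 * t + 1 ≤ x * t ^ 2) ∧
    (512 * (t ^ 2 * M) + 4 * J + 3 + 2048 * t ^ 2 + 24 * t ≤ v) ∧
    (2 * (x * t ^ 3) ≤ 128 * (t * v) - 3072 * (t ^ 2 * M) - 3072 * t ^ 2
          - 512 * (32768 * t ^ 4 + 8192 * t ^ 3) - 256 * t) ∧
    (16 * J + 1 + 8 * (t * M) + 24 * t + 3 ≤ v) ∧
    (4 * (8 * t + 2) * J + (8 * t + 2) * (32768 * t ^ 3) + 24 * t + 192 * t ^ 2 + 1 +
      64 * (t ^ 2 * M) ≤ x * t ^ 3) ∧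
    (2 * (2 * v) + 1 + J * M ≤ x * t ^ 3 + x * t ^ 2) := by
  obtain ⟨⟨a1, a2, a3⟩, ⟨b1, b2, b3⟩, ⟨c1, c2, c3⟩, ⟨d1, d2, d3⟩, e1⟩ := ParEx_pr T1 hx1 v2 M1
  have t4 : 1 ≤ t ^ 4 := by linarith
  refine ⟨⟨?_, ?_, ?_, ?_, ?_⟩, ⟨?_, ?_, ?_⟩, ⟨?_, ?_⟩, ?_, ?_, ?_, ?_, ?_⟩
  · linarith
  · linarith
  · linarith
  · rw [hJ]; linarith
  · have e : 8 * t * M = 8 * (t * M) := by ring
    rw [e]; linarith
  · linarith
  · rw [hJ]; linarith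
  · have e : (4 * (32 * t) + 1) ^ 2 + 2 * (4 * (32 * t) + 1) = 16384 * t ^ 2 + 512 * t + 3 := by
      ring
    rw [e]; linarith
  · linarith
  · have e : 8 * t * M = 8 * (t * M) := by ring
    rw [e]; linarith
  · rw [hJ]; linarith
  · linarith
  · rw [hJ]; linarith
  · have e : 4 * (8 * t + 2) * J + (8 * t + 2) * (32768 * t ^ 3) =
      4 * (262144 * t ^ 4 + 131072 * t ^ 3 + 16384 * t ^ 2) + 262144 * t ^ 4 + 65536 * t ^ 3 := by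
      rw [hJ]; ring
    rw [e]; linarith
  · have e : J * M = 32768 * (t ^ 3 * M) + 8192 * (t ^ 2 * M) := by rw [hJ]; ring
    rw [e]; linarith

private lemma ParEx_c3 (u J r : ℕ) :
    (u + 4 * J + 2 + r) * (u + 1) + 1 ≤ (u + 2 + r) * (u + 4 * J + 2) := by
  have e : (u + 2 + r) * (u + 4 * J + 2) =
      (u + 4 * J + 2 + r) * (u + 1) + 1 + (u + 4 * J + 1 + r * (4 * J + 1)) := by ring
  omega

private lemma ParEx_c5 {t k v u J M m1 : ℕ} (hu : u + v = k)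
    (hm1 : m1 + (8 * t * M + 24 * t + 1) = k) (hJ : J = 32768 * t ^ 3 + 8192 * t ^ 2)
    (q12 : 2 * k + 3072 * (t ^ 2 * M) + 3072 * t ^ 2 + 512 * (32768 * t ^ 4 + 8192 * t ^ 3) +
      256 * t ≤ 128 * (t * v)) :
    4 * (32 * t) * (u + 4 * J + 3 + 2 * (8 * t) * M) + 2 * k ≤ 4 * (32 * t) * (m1 + 2) + 1 := by
  zify at *
  have hu' : (u:ℤ) = k - v := by linarith
  have hm1' : (m1:ℤ) = k - (8 * t * M + 24 * t + 1) := by linarith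
  rw [hu', hm1', hJ]
  linarith

private lemma ParEx_c6 {k u J m1 w : ℕ} (hk : 5 ≤ k) (hm1 : u + 2 + (16 * J + 1) ≤ m1)
    (hw : w ≤ 3 * k) :
    (k - 1) * (u + 2) + 4 * J * w + 1 ≤ (k - 1) * m1 := by
  obtain ⟨k', rfl⟩ : ∃ k', k = k' + 1 := ⟨k - 1, by omega⟩
  have h1 : (k' + 1 - 1) * (u + 2 + (16 * J + 1)) ≤ (k' + 1 - 1) * m1 :=
    Nat.mul_le_mul_left _ hm1
  have h2 : 4 * J * w ≤ 4 * J * (3 * (k' + 1)) := Nat.mul_le_mul_left _ hw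
  have h3 : J * 12 ≤ J * (4 * (k' - 1)) := Nat.mul_le_mul_left _ (by omega)
  obtain ⟨k'', rfl⟩ : ∃ k'', k' = k'' + 1 := ⟨k' - 1, by omega⟩
  simp only [Nat.add_sub_cancel] at *
  nlinarith

private lemma ParEx_c8 {t k J M m1 : ℕ} (hk : 5 ≤ k)
    (hm1 : m1 + (8 * t * M + 24 * t + 1) = k) (hJ : J = 32768 * t ^ 3 + 8192 * t ^ 2)
    (M1 : 32768 * t ^ 3 * M ≤ k) (M2 : k < 32768 * t ^ 3 * (M + 1))
    (q14 : 4 * (8 * t + 2) * J + (8 * t + 2) * (32768 * t ^ 3) + 24 * t + 192 * t ^ 2 + 1 +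
      64 * (t ^ 2 * M) ≤ k) :
    8 * t * M * (2 * J * (J - 1)) + (k - 1) * (8 * t * (2 * k + 2 - m1) + k + 1) ≤
      8 * t * M * ((k - 1) * J) := by
  obtain ⟨k', hk'⟩ : ∃ k', k = k' + 1 := ⟨k - 1, by omega⟩
  have e1 : 2 * k + 2 - m1 = k + 3 + 8 * t * M + 24 * t := by omega
  have e2 : k - 1 = k' := by omega
  obtain ⟨N, hN⟩ : ∃ N, N = 32768 * t ^ 3 * M := ⟨_, rfl⟩
  have e3 : 8 * t * M * J = (8 * t + 2) * N := by rw [hJ, hN]; ring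
  have h1 : k ≤ N + 32768 * t ^ 3 := by
    have : 32768 * t ^ 3 * (M + 1) = 32768 * t ^ 3 * M + 32768 * t ^ 3 := by ring
    omega
  have h2 : (8 * t + 2) * k ≤ (8 * t + 2) * (N + 32768 * t ^ 3) := Nat.mul_le_mul_left _ h1
  have h3 : 8 * t * (k + 3 + 8 * t * M + 24 * t) + k + 1 + 4 * (8 * t + 2) * J ≤
      (8 * t + 2) * N := by nlinarith
  have h4 : k' * (8 * t * (k + 3 + 8 * t * M + 24 * t) + k + 1 + 4 * (8 * t + 2) * J) ≤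
      k' * ((8 * t + 2) * N) := Nat.mul_le_mul_left _ h3
  have h5 : 8 * t * M * (2 * J * (J - 1)) ≤ 2 * ((8 * t + 2) * J) * k := by
    calc 8 * t * M * (2 * J * (J - 1)) = 2 * (8 * t * M * J) * (J - 1) := by ring
      _ = 2 * (8 * t + 2) * (J - 1) * N := by rw [e3]; ring
      _ ≤ 2 * (8 * t + 2) * J * k :=
        Nat.mul_le_mul (Nat.mul_le_mul_left _ (Nat.sub_le _ _)) (by omega)
      _ = _ := by ring
  have h6 : 2 * ((8 * t + 2) * J) * k ≤ 2 * ((8 * t + 2) * J) * (2 * k') :=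
    Nat.mul_le_mul_left _ (by omega)
  have e4 : 8 * t * M * (k' * J) = k' * ((8 * t + 2) * N) := by
    rw [← e3]; ring
  rw [e1, e2, e4]
  calc _ ≤ 2 * ((8 * t + 2) * J) * (2 * k') + k' * (8 * t * (k + 3 + 8 * t * M + 24 * t) + k + 1) :=
        Nat.add_le_add_right (h5.trans h6) _
    _ = k' * (8 * t * (k + 3 + 8 * t * M + 24 * t) + k + 1 + 4 * (8 * t + 2) * J) := by ring
    _ ≤ _ := h4

theorem par_ex {ε : ℝ} (hε : 0 < ε) : ∃ k0 : ℕ, ∀ k : ℕ, k0 ≤ k → ∀ d : ℕ, d ≤ k →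
    ε * k ≤ d → ∃ p : Par k d, (p.s : ℝ) ≤ (1 + ε) * k := by
  obtain ⟨t', ht'⟩ := exists_nat_gt (1 / ε)
  obtain ⟨t, ht1, htε⟩ : ∃ t : ℕ, 1 ≤ t ∧ 1 ≤ ε * t := by
    refine ⟨t' + 1, by omega, ?_⟩
    rw [div_lt_iff₀ hε] at ht'
    push_cast
    linarith
  refine ⟨10 ^ 8 * t ^ 4, ?_⟩
  intro k hk d hdk hd
  have t0 : 0 < t := ht1
  have T1 : (1:ℝ) ≤ t := by exact_mod_cast ht1
  have T0 : (0:ℝ) < t := by linarith
  have hkR : (10:ℝ) ^ 8 * (t:ℝ) ^ 4 ≤ k := by exact_mod_cast hk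
  obtain ⟨v, hv⟩ : ∃ v, v = k / (16 * t) := ⟨_, rfl⟩
  obtain ⟨M, hM⟩ : ∃ M, M = k / (32768 * t ^ 3) := ⟨_, rfl⟩
  have v1 : 16 * t * v ≤ k := by rw [hv]; exact Nat.mul_div_le _ _
  have v2 : k < 16 * t * (v + 1) := by
    rw [hv]; exact Nat.lt_mul_div_succ _ (by positivity)
  have M1 : 32768 * t ^ 3 * M ≤ k := by rw [hM]; exact Nat.mul_div_le _ _
  have M2 : k < 32768 * t ^ 3 * (M + 1) := by
    rw [hM]; exact Nat.lt_mul_div_succ _ (Nat.mul_pos (by norm_num) (Nat.pow_pos t0))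
  have v1R : 16 * (t:ℝ) * v ≤ k := by exact_mod_cast v1
  have v2R : (k:ℝ) < 16 * t * (v + 1) := by exact_mod_cast v2
  have M1R : 32768 * (t:ℝ) ^ 3 * M ≤ k := by exact_mod_cast M1
  have M2R : (k:ℝ) < 32768 * (t:ℝ) ^ 3 * (M + 1) := by exact_mod_cast M2
  obtain ⟨x, hx⟩ : ∃ x : ℝ, (k:ℝ) = x * t ^ 3 := ⟨k / t ^ 3, by field_simp⟩
  obtain ⟨hx1, v1x, v2x, M1x, M2x⟩ := ParEx_bd T0 hx hkR v1R v2R M1R M2R
  obtain ⟨J, hJ⟩ : ∃ J, J = 32768 * t ^ 3 + 8192 * t ^ 2 := ⟨_, rfl⟩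
  have hJR : (J:ℝ) = 32768 * (t:ℝ) ^ 3 + 8192 * (t:ℝ) ^ 2 := by rw [hJ]; push_cast; ring
  obtain ⟨⟨r1, r2, r3, r4, r5⟩, ⟨r6, r7, r8⟩, ⟨r9, r10⟩, r11, r12, r13, r14, r15⟩ :=
    ParEx_real T1 hx1 v1x v2x M1x M2x hJR
  have hεx : x * (t:ℝ) ^ 2 ≤ ε * k := by
    have h1 : x * (t:ℝ) ^ 2 * 1 ≤ x * (t:ℝ) ^ 2 * (ε * t) :=
      mul_le_mul_of_nonneg_left htε (mul_nonneg (by linarith) (pow_nonneg T0.le 2))
    rw [hx]; linarith
  have hdx : x * (t:ℝ) ^ 2 ≤ d := hεx.trans hd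
  rw [← hx] at r2 r5 r6 r8 r12 r14 r15
  have q1 : 1 ≤ v := by exact_mod_cast r1
  have q2 : 2 * v < k := by exact_mod_cast r2
  have q3 : 1 ≤ M := by exact_mod_cast r3
  have q4 : 4 * J + 3 ≤ v := by exact_mod_cast r4
  have q5 : 8 * t * M + 24 * t + 1 ≤ k := by exact_mod_cast r5
  have q6 : 5 ≤ k := by exact_mod_cast r6
  have q7 : 32 * t ≤ J := by exact_mod_cast r7
  have q8 : (4 * (32 * t) + 1) ^ 2 + 2 * (4 * (32 * t) + 1) ≤ k := by exact_mod_cast r8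
  have q9 : v ≤ d := by exact_mod_cast r9.trans hdx
  have q10 : 8 * t * M + 24 * t + 1 ≤ d := by exact_mod_cast r10.trans hdx
  have q11 : 512 * (t ^ 2 * M) + 4 * J + 3 + 2048 * t ^ 2 + 24 * t ≤ v := by exact_mod_cast r11
  have q12 : 2 * k + 3072 * (t ^ 2 * M) + 3072 * t ^ 2 + 512 * (32768 * t ^ 4 + 8192 * t ^ 3) +
      256 * t ≤ 128 * (t * v) := by
    have : 2 * (k:ℝ) + 3072 * (t ^ 2 * M) + 3072 * t ^ 2 + 512 * (32768 * t ^ 4 + 8192 * t ^ 3) +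
      256 * t ≤ 128 * (t * v) := by linarith
    exact_mod_cast this
  have q13 : 16 * J + 1 + 8 * (t * M) + 24 * t + 3 ≤ v := by exact_mod_cast r13
  have q14 : 4 * (8 * t + 2) * J + (8 * t + 2) * (32768 * t ^ 3) + 24 * t + 192 * t ^ 2 + 1 +
      64 * (t ^ 2 * M) ≤ k := by exact_mod_cast r14
  obtain ⟨u, hu⟩ : ∃ u, u + v = k := ⟨k - v, by omega⟩
  obtain ⟨m1, hm1⟩ : ∃ m1, m1 + (8 * t * M + 24 * t + 1) = k :=
    ⟨k - (8 * t * M + 24 * t + 1), by omega⟩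
  have s1 : 8 * t * M = 8 * (t * M) := by ring
  refine ⟨⟨8 * t, M, J, (u + 1) * (8 * t - 1) + 1, 2 * v, u, u + 4 * J + 3, m1, 32 * t,
    q6, hdk, by omega, q3, by omega, q7, by omega, by omega, by omega, ?_, by omega, q8, by omega,
    by omega, ?_, ?_, by omega, ?_, ?_, by omega, ?_⟩, ?_⟩
  · -- hn
    have := ParEx_hn q1 q2
    have e : k - v = u := by omega
    rw [e] at this
    exact this
  · -- c2
    have e1 : 2 * (8 * t) * M * (32 * t) = 512 * (t ^ 2 * M) := by ring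
    have e2 : 8 * t * (8 * (32 * t) + 3) = 2048 * t ^ 2 + 24 * t := by ring
    rw [e1, e2]
    omega
  · -- c3
    obtain ⟨r, hr⟩ : ∃ r, v = 4 * J + 3 + r := ⟨v - (4 * J + 3), by omega⟩
    have e1 : k - 1 = u + 4 * J + 2 + r := by omega
    have e2 : u + 4 * J + 2 + r - 4 * J = u + 2 + r := by omega
    have e3 : u + 4 * J + 3 - 1 = u + 4 * J + 2 := by omega
    rw [e3, e1, e2]
    exact ParEx_c3 u J r
  · -- c5
    exact ParEx_c5 hu hm1 hJ q12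
  · -- c6
    refine ParEx_c6 q6 (by omega) ?_
    have e : 2 * (8 * t) * M = 2 * (8 * t * M) := by ring
    omega
  · -- c8
    exact ParEx_c8 q6 hm1 hJ M1 M2 q14
  · -- s
    have e : ((2 * (2 * v) + 1 + J * M : ℕ) : ℝ) ≤ (1 + ε) * k := by
      push_cast
      linarith
    exact e

end HWar
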