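import Pool.Agent.HWar.Defs

/-!
# HWar.ParEx2: parameters with `k + O(k^(3/4))` summands

PROOF. Let `a = ⌊k^(1/4)⌋`, so `a^4 ≤ k < (a+1)^4` and `a ≥ 30` (e.g. `Nat.sqrt (Nat.sqrt k)`, or
`Nat.findGreatest`). Put
`q = a`, `v = 8a³`, `u = k - v`, `n = 8a³ + 64a²`, `M = a`, `J = ⌊k/a⌋ + 6a² + 1`, `j0 = a`,
`m0 = u + 4J + 3`, `m1 = (k-1) - qM - 3q`, `L = A (u+1)(q-1) + (u+1)(q-1) + 1`
(`A`, `L` play no role otherwise).
I have checked all the inequalities numerically for `a = 30..400`, `1000`, `5000`, `10000` and several `k`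
for each `a`. They are polynomial inequalities: write `k = a J' + b`, `J' = ⌊k/a⌋`, `b < a`, so
`a³ ≤ J' ≤ a³ + 4a² + 6a + 4` (`k ≤ (a+1)^4 - 1 = a^4 + 4a³ + 6a² + 4a`).
* `hn`: with `x = n/k`: `(1 - 1/k)^n ≤ exp(-x) ≤ 1/(1 + x + x²/2)` (`Real.one_sub_le_exp_neg`,
  `Real.quadratic_le_exp_of_nonneg`), so it is enough that `1 < (1 - v/k)(1 + x + x²/2)`; as
  `(1 - v/k)(1 + x + x²/2) = 1 + (x - v/k) + x²/2 - (v/k) x - (v/k) x²/2`, `x - v/k = 64a²/k`,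
  `x²/2 - (v/k)x = (x/2)(x - 2v/k) ≥ -(x/2)(v/k)`, ... (all terms are explicit: `x = (8a³+64a²)/k`,
  `v/k = 8a³/k`, `a^4 ≤ k ≤ (a+1)^4`). It suffices that
  `64 a² k² · 2 > ..` etc.; any elementary verification.
* `hst`: `(4a+1)² + 2(4a+1) = 16a² + 16a + 3 ≤ a^4`.
* `c1`: `k - m0 = 8a³ - 4J - 3 ≤ 4a³ ≤ 4k^(3/4) ≤ d`. `c1'`: `k - m1 = 1 + a² + 3a ≤ 4a³ ≤ d`.
  (`a³ ≤ k^(3/4)` from `a^4 ≤ k`.)
* `c2`: `v - 4J - 3 ≥ 2a³ + 8a² + 3a`: `8a³ - 4(a³ + 4a² + 6a + 4 + 6a² + 1) - 3 = 4a³ - 40a² - 24a - 23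
  ≥ 2a³ + 8a² + 3a` for `a ≥ 30` (`2a³ ≥ 48a² + 27a + 23`).
* `c3`: the difference of the sides is `4J(v - 4J - 3) + (k-1) - 1 ≥ 0`.
* `c4`: `7k ≤ 8 m0` is stronger: `8(8a³ - 4J - 3) ≤ 8 · 4a³ - .. ≤ a^4 ≤ k`: `8(8a³-4J-3) ≤ 32a³ - ..`,
  in fact `8a³ - 4J - 3 ≤ 4a³ - 24a² - 7` and `8(4a³ - 24a² - 7) ≤ a^4` for `a ≥ 30`
  (`a^4 - 32a³ + 192a² + 56 ≥ 0`: at `a = 30`, `810000 - 864000 + 172800 + 56 > 0`; for `a ≥ 32` clear).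
* `c5`, `c5f`: `m1 + 2 - m0 - 2qM = v - 3qM - 3q - 4J - 2 ≥ 8a³ - 3a² - 3a - 4(a³+10a²+6a+5) - 2 ≥ 2a³`,
  and `8 a · 2a³ = 16a^4 ≥ 7(a+1)^4 > 7k`.
* `c6`: `m1 - u - 2 = v - 3 - qM - 3q`, `(k-1)(v - 3 - a² - 3a) ≥ 4J(m0 + 2a²) + 1`: `m0 + 2a² ≤ k - 1`
  (from `c2`), so `v - 3 - a² - 3a ≥ 4J + 1` is enough.
* `c7`: equality up to 1. `c8`: divide by `q (k-1)`: it follows from
  `M J - 2 M J (J-1)/(k-1) ≥ k + 3 + qM + 3q + (k+1)/q`; in integers: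
  `a(k-1)·a·J - a·a·2J(J-1) - (k-1)(a(k+3+a²+3a) + k+1) ≥ 0`
  with `aJ ≥ k - a + 1 + 6a³ + a`, `J ≤ a³ + 10a² + 6a + 5`.
* `s = 2n + 1 + JM ≤ 16a³ + 128a² + 1 + k + 6a³ + a ≤ k + 27a³` for `a ≥ 30`.
(The choice of the parameters may be changed if that is convenient.)
-/

namespace HWar

private theorem ParEx2_root {k : ℕ} (hk : 30 ^ 4 ≤ k) :
    ∃ a : ℕ, 30 ≤ a ∧ a ^ 4 ≤ k ∧ k < (a + 1) ^ 4 := by
  have h1 := Nat.sqrt_le' k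
  have h2 := Nat.lt_succ_sqrt' k
  have h3 := Nat.sqrt_le' (Nat.sqrt k)
  have h4 := Nat.lt_succ_sqrt' (Nat.sqrt k)
  refine ⟨Nat.sqrt (Nat.sqrt k), ?_, ?_, ?_⟩
  · rw [Nat.le_sqrt', Nat.le_sqrt']
    norm_num at hk ⊢
    exact hk
  · calc Nat.sqrt (Nat.sqrt k) ^ 4 = (Nat.sqrt (Nat.sqrt k) ^ 2) ^ 2 := by ring
      _ ≤ Nat.sqrt k ^ 2 := Nat.pow_le_pow_left h3 2
      _ ≤ k := h1
  · calc k < (Nat.sqrt k).succ ^ 2 := h2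
      _ ≤ ((Nat.sqrt (Nat.sqrt k)).succ ^ 2) ^ 2 := Nat.pow_le_pow_left h4 2
      _ = (Nat.sqrt (Nat.sqrt k) + 1) ^ 4 := by rw [Nat.succ_eq_add_one]; ring

private theorem ParEx2_hn {a k U : ℕ} (ha : 30 ≤ a) (h4 : a ^ 4 ≤ k) (hU : k = U + 8 * a ^ 3) :
    (k : ℝ) * (1 - 1 / (k : ℝ)) ^ (8 * a ^ 3 + 64 * a ^ 2) < U := by
  have haR : (30 : ℝ) ≤ a := by exact_mod_cast ha
  have h4R : (a : ℝ) ^ 4 ≤ k := by exact_mod_cast h4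
  have ha4 : (1 : ℝ) ≤ (a : ℝ) ^ 4 := one_le_pow₀ (by linarith)
  have hk0 : (0 : ℝ) < k := by linarith
  have hk1 : (1 : ℝ) ≤ k := by linarith
  have hUR : (U : ℝ) = k - 8 * (a : ℝ) ^ 3 := by
    have : (k : ℝ) = U + 8 * (a : ℝ) ^ 3 := by exact_mod_cast hU
    linarith
  set n : ℕ := 8 * a ^ 3 + 64 * a ^ 2 with hn
  have hnR : (n : ℝ) = 8 * (a : ℝ) ^ 3 + 64 * (a : ℝ) ^ 2 := by
    rw [hn]
    push_cast
    ring
  have hn0 : (0 : ℝ) ≤ n := Nat.cast_nonneg _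
  set P : ℝ := (1 - 1 / (k : ℝ)) ^ n with hP
  have h1 : P ≤ Real.exp (-((n : ℝ) / k)) := by
    have e1 : 1 - 1 / (k : ℝ) ≤ Real.exp (-(1 / (k : ℝ))) := Real.one_sub_le_exp_neg _
    have e2 : 0 ≤ 1 - 1 / (k : ℝ) := by
      rw [sub_nonneg, div_le_one hk0]
      exact hk1
    calc P ≤ (Real.exp (-(1 / (k : ℝ)))) ^ n := pow_le_pow_left₀ e2 e1 n
      _ = Real.exp ((n : ℝ) * (-(1 / (k : ℝ)))) := (Real.exp_nat_mul _ _).symm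
      _ = Real.exp (-((n : ℝ) / k)) := by
        congr 1
        ring
  have hx : 0 ≤ (n : ℝ) / k := by positivity
  have h2 := Real.quadratic_le_exp_of_nonneg hx
  set Q : ℝ := 1 + (n : ℝ) / k + ((n : ℝ) / k) ^ 2 / 2 with hQ
  have hQ0 : 0 < Q := by positivity
  have hPQ : P * Q ≤ 1 := by
    calc P * Q ≤ Real.exp (-((n : ℝ) / k)) * Real.exp ((n : ℝ) / k) :=
          mul_le_mul h1 h2 hQ0.le (Real.exp_pos _).le
      _ = 1 := by rw [← Real.exp_add, neg_add_cancel, Real.exp_zero]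
  have key : ((a : ℝ) ^ 4 + 8 * (a : ℝ) ^ 3) * (k + n) < 2 * (k : ℝ) ^ 2 := by
    have e1 : 8 * ((a : ℝ) + 8) ^ 2 < (a : ℝ) ^ 2 * (a - 8) := by
      nlinarith [mul_nonneg (sub_nonneg.2 haR) (sub_nonneg.2 haR),
        mul_nonneg (mul_nonneg (sub_nonneg.2 haR) (sub_nonneg.2 haR)) (sub_nonneg.2 haR)]
    have e2 : (a : ℝ) ^ 5 * (8 * ((a : ℝ) + 8) ^ 2) < (a : ℝ) ^ 5 * ((a : ℝ) ^ 2 * (a - 8)) :=
      mul_lt_mul_of_pos_left e1 (by positivity)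
    have e3 : (0 : ℝ) ≤ (a : ℝ) ^ 4 - 8 * (a : ℝ) ^ 3 := by
      have : (a : ℝ) ^ 4 - 8 * (a : ℝ) ^ 3 = (a : ℝ) ^ 3 * (a - 8) := by ring
      rw [this]
      exact mul_nonneg (by positivity) (by linarith)
    have e4 : (a : ℝ) ^ 4 * ((a : ℝ) ^ 4 - 8 * (a : ℝ) ^ 3) ≤
        (k : ℝ) * (2 * k - (a : ℝ) ^ 4 - 8 * (a : ℝ) ^ 3) :=
      mul_le_mul h4R (by linarith) e3 hk0.le
    rw [hnR]
    have e5 : 2 * (k : ℝ) ^ 2 - ((a : ℝ) ^ 4 + 8 * (a : ℝ) ^ 3) *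
        (k + (8 * (a : ℝ) ^ 3 + 64 * (a : ℝ) ^ 2)) =
        (k : ℝ) * (2 * k - (a : ℝ) ^ 4 - 8 * (a : ℝ) ^ 3) -
          (a : ℝ) ^ 5 * (8 * ((a : ℝ) + 8) ^ 2) := by ring
    have e6 : (a : ℝ) ^ 5 * ((a : ℝ) ^ 2 * (a - 8)) =
        (a : ℝ) ^ 4 * ((a : ℝ) ^ 4 - 8 * (a : ℝ) ^ 3) := by ring
    linarith
  have hUQ : (k : ℝ) < U * Q := by
    have e1 : (U : ℝ) * Q - k = 64 * (a : ℝ) ^ 2 *
        (2 * (k : ℝ) ^ 2 + k * n - ((a : ℝ) ^ 4 + 8 * (a : ℝ) ^ 3) * (k + n)) /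
          (2 * (k : ℝ) ^ 2) := by
      rw [hQ, hUR, hnR]
      field_simp
      ring
    have e2 : 0 < 64 * (a : ℝ) ^ 2 *
        (2 * (k : ℝ) ^ 2 + k * n - ((a : ℝ) ^ 4 + 8 * (a : ℝ) ^ 3) * (k + n)) /
          (2 * (k : ℝ) ^ 2) := by
      apply div_pos _ (by positivity)
      apply mul_pos (by positivity)
      have e3 : 0 ≤ (k : ℝ) * n := by positivity
      linarith
    linarith
  by_contra hcon
  push Not at hcon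
  have e1 : (U : ℝ) * Q ≤ k * P * Q := mul_le_mul_of_nonneg_right hcon hQ0.le
  have e2 : (k : ℝ) * P * Q ≤ k := by
    rw [mul_assoc]
    calc (k : ℝ) * (P * Q) ≤ k * 1 := mul_le_mul_of_nonneg_left hPQ hk0.le
      _ = k := mul_one _
  linarith

private theorem ParEx2_c8 {a K Y : ℤ} (ha : 30 ≤ a) (h4 : a ^ 4 ≤ K)
    (h5 : K ≤ a ^ 4 + 4 * a ^ 3 + 6 * a ^ 2 + 4 * a)
    (hY : K + 1 + 6 * a ^ 3 ≤ Y) (hY' : Y ≤ K + 6 * a ^ 3 + a) :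
    2 * (Y * (Y - a)) + (K - 1) * (a * (K + 3 + a ^ 2 + 3 * a) + K + 1) ≤ a * ((K - 1) * Y) := by
  have ha0 : 0 ≤ a := by linarith
  have ha4 : 0 ≤ a ^ 4 := by positivity
  have ha3 : 0 ≤ a ^ 3 := by positivity
  have ha41 : 1 ≤ a ^ 4 := one_le_pow₀ (by linarith)
  have hK1 : 0 ≤ K - 1 := by linarith
  have e1 : a * ((K - 1) * (K + 1 + 6 * a ^ 3)) ≤ a * ((K - 1) * Y) :=
    mul_le_mul_of_nonneg_left (mul_le_mul_of_nonneg_left hY hK1) ha0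
  have e2 : Y * (Y - a) ≤ (K + 6 * a ^ 3 + a) * (K + 6 * a ^ 3) :=
    mul_le_mul hY' (by linarith)
      (by linarith [show a ≤ a ^ 4 from le_self_pow₀ (by linarith) (by norm_num)]) (by linarith)
  obtain ⟨x, rfl⟩ : ∃ x : ℤ, a = 30 + x := ⟨a - 30, by ring⟩
  have hx : 0 ≤ x := by linarith
  have f1 : 0 ≤ 4 * (30 + x) ^ 4 - 5 * (30 + x) ^ 3 - 9 * (30 + x) ^ 2 - 6 * (30 + x) := by
    ring_nf
    positivity
  have f2 : 2 * ((((30 + x) ^ 4 + 10 * (30 + x) ^ 3 + 6 * (30 + x) ^ 2 + 5 * (30 + x))) *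
      ((30 + x) ^ 4 + 10 * (30 + x) ^ 3 + 6 * (30 + x) ^ 2 + 4 * (30 + x))) ≤
      ((30 + x) ^ 4 - 1) * (5 * (30 + x) ^ 4 - (30 + x) ^ 3 - 3 * (30 + x) ^ 2 -
        2 * (30 + x) - 1) := by
    rw [← sub_nonneg]
    ring_nf
    positivity
  have f3 : (K + 6 * (30 + x) ^ 3 + (30 + x)) * (K + 6 * (30 + x) ^ 3) ≤
      ((30 + x) ^ 4 + 10 * (30 + x) ^ 3 + 6 * (30 + x) ^ 2 + 5 * (30 + x)) *
      ((30 + x) ^ 4 + 10 * (30 + x) ^ 3 + 6 * (30 + x) ^ 2 + 4 * (30 + x)) :=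
    mul_le_mul (by linarith) (by linarith) (by linarith) (by positivity)
  have f4 : 0 ≤ (K - (30 + x) ^ 4) * ((6 * (30 + x) ^ 4 - (30 + x) ^ 3 - 3 * (30 + x) ^ 2 -
      2 * (30 + x) - 1) - K - (30 + x) ^ 4 + 1) :=
    mul_nonneg (by linarith) (by linarith)
  have f5 : (K - 1) * ((6 * (30 + x) ^ 4 - (30 + x) ^ 3 - 3 * (30 + x) ^ 2 -
      2 * (30 + x) - 1) - K) = ((30 + x) ^ 4 - 1) * (5 * (30 + x) ^ 4 - (30 + x) ^ 3 -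
        3 * (30 + x) ^ 2 - 2 * (30 + x) - 1) + (K - (30 + x) ^ 4) *
        ((6 * (30 + x) ^ 4 - (30 + x) ^ 3 - 3 * (30 + x) ^ 2 -
      2 * (30 + x) - 1) - K - (30 + x) ^ 4 + 1) := by
    ring
  have f6 : (30 + x) * ((K - 1) * (K + 1 + 6 * (30 + x) ^ 3)) -
      (K - 1) * ((30 + x) * (K + 3 + (30 + x) ^ 2 + 3 * (30 + x)) + K + 1) =
      (K - 1) * ((6 * (30 + x) ^ 4 - (30 + x) ^ 3 - 3 * (30 + x) ^ 2 -
      2 * (30 + x) - 1) - K) := by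
    ring
  linarith

theorem par_ex2 (A : ℕ) {k d : ℕ} (hk : 30 ^ 4 ≤ k) (hd : d ≤ k)
    (hdk : 4 * (k : ℝ) ^ ((3 : ℝ) / 4) ≤ d) :
    ∃ p : Par k d, (p.s : ℝ) ≤ k + 27 * (k : ℝ) ^ ((3 : ℝ) / 4) ∧
      7 * k ≤ 8 * p.m0 ∧
      8 * p.j0 * (p.m0 + 2 * p.q * p.M) + 7 * k ≤ 8 * p.j0 * (p.m1 + 2) ∧
      A * ((p.u + 1) * (p.q - 1)) < p.L := by
  obtain ⟨a, ha, h4, h4'⟩ := ParEx2_root hk
  have ha0 : 0 < a := by omega
  -- the power `k ^ (3/4)`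
  have h34 : (a : ℝ) ^ 3 ≤ (k : ℝ) ^ ((3 : ℝ) / 4) := by
    have e1 : (a : ℝ) ^ 3 = ((a : ℝ) ^ 4) ^ ((3 : ℝ) / 4) := by
      rw [← Real.rpow_natCast (a : ℝ) 4, ← Real.rpow_mul (Nat.cast_nonneg a),
        ← Real.rpow_natCast (a : ℝ) 3]
      congr 1
      norm_num
    rw [e1]
    apply Real.rpow_le_rpow (by positivity) _ (by norm_num)
    exact_mod_cast h4
  have hd4 : 4 * a ^ 3 ≤ d := by
    have e1 : (4 : ℝ) * (a : ℝ) ^ 3 ≤ d := by linarith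
    exact_mod_cast e1
  -- the quotient
  obtain ⟨J', hJ'⟩ : ∃ J', J' = k / a := ⟨_, rfl⟩
  have hb1 : a * J' ≤ k := by rw [hJ']; exact Nat.mul_div_le k a
  have hb2 : k + 1 ≤ a * (J' + 1) := by rw [hJ']; exact Nat.lt_mul_div_succ k ha0
  have hJ1 : a ^ 3 ≤ J' := by
    rw [hJ', Nat.le_div_iff_mul_le ha0]
    calc a ^ 3 * a = a ^ 4 := by ring
      _ ≤ k := h4
  have hJ2 : J' ≤ a ^ 3 + 4 * a ^ 2 + 6 * a + 4 := by
    have : J' < a ^ 3 + 4 * a ^ 2 + 6 * a + 5 := by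
      rw [hJ', Nat.div_lt_iff_lt_mul ha0]
      nlinarith
    omega
  obtain ⟨J, hJ⟩ : ∃ J, J = J' + 6 * a ^ 2 + 1 := ⟨_, rfl⟩
  -- integer facts
  have haZ : (30 : ℤ) ≤ a := by exact_mod_cast ha
  have h4Z : (a : ℤ) ^ 4 ≤ k := by exact_mod_cast h4
  have h4Z' : (k : ℤ) ≤ (a : ℤ) ^ 4 + 4 * (a : ℤ) ^ 3 + 6 * (a : ℤ) ^ 2 + 4 * a := by
    have e1 : (k : ℤ) < ((a : ℤ) + 1) ^ 4 := by exact_mod_cast h4'
    have e2 : ((a : ℤ) + 1) ^ 4 =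
        (a : ℤ) ^ 4 + 4 * (a : ℤ) ^ 3 + 6 * (a : ℤ) ^ 2 + 4 * a + 1 := by ring
    linarith
  have hA2 : 30 * (a : ℤ) ≤ (a : ℤ) ^ 2 := by
    rw [pow_two]
    exact mul_le_mul_of_nonneg_right haZ (by linarith)
  have hA3 : 30 * (a : ℤ) ^ 2 ≤ (a : ℤ) ^ 3 := by
    have : (a : ℤ) ^ 3 = a * (a : ℤ) ^ 2 := by ring
    rw [this]
    exact mul_le_mul_of_nonneg_right haZ (by positivity)
  have hA4 : 30 * (a : ℤ) ^ 3 ≤ (a : ℤ) ^ 4 := by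
    have : (a : ℤ) ^ 4 = a * (a : ℤ) ^ 3 := by ring
    rw [this]
    exact mul_le_mul_of_nonneg_right haZ (by positivity)
  have hJZ : (J : ℤ) = J' + 6 * (a : ℤ) ^ 2 + 1 := by exact_mod_cast hJ
  have hJ1Z : (a : ℤ) ^ 3 ≤ J' := by exact_mod_cast hJ1
  have hJ2Z : (J' : ℤ) ≤ (a : ℤ) ^ 3 + 4 * (a : ℤ) ^ 2 + 6 * a + 4 := by exact_mod_cast hJ2
  have hb1Z : (a : ℤ) * J' ≤ k := by exact_mod_cast hb1
  have hb2Z : (k : ℤ) + 1 ≤ a * (J' + 1) := by exact_mod_cast hb2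
  have hF1 : 48 * (a : ℤ) ^ 2 + 27 * a + 23 ≤ 2 * (a : ℤ) ^ 3 := by linarith
  have h8k : 8 * a ^ 3 + 1 ≤ k := by
    zify
    linarith
  obtain ⟨U, hU⟩ : ∃ U, k = U + 8 * a ^ 3 := ⟨k - 8 * a ^ 3, by omega⟩
  have hUZ : (k : ℤ) = U + 8 * (a : ℤ) ^ 3 := by exact_mod_cast hU
  have hmk : 1 + a ^ 2 + 3 * a ≤ k := by
    zify
    linarith
  obtain ⟨m1, hm1⟩ : ∃ m1, k = m1 + (1 + a ^ 2 + 3 * a) := ⟨k - (1 + a ^ 2 + 3 * a), by omega⟩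
  have hm1Z : (k : ℤ) = m1 + (1 + (a : ℤ) ^ 2 + 3 * a) := by exact_mod_cast hm1
  have hU0 : (0 : ℤ) ≤ U := Int.natCast_nonneg U
  have h4J : 4 * J + 1 ≤ k := by
    zify
    linarith
  obtain ⟨R, hR⟩ : ∃ R, k = 4 * J + 1 + R := ⟨k - (4 * J + 1), by omega⟩
  have hRZ : (k : ℤ) = 4 * J + 1 + R := by exact_mod_cast hR
  have hF2 : 4 * (J : ℤ) + 3 + 8 * (a : ℤ) ^ 2 + 3 * a ≤ 6 * (a : ℤ) ^ 3 := by linarith
  refine ⟨{ q := a, M := a, J := J, L := A * ((U + 1) * (a - 1)) + (U + 1) * (a - 1) + 1,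
            n := 8 * a ^ 3 + 64 * a ^ 2, u := U, m0 := U + 4 * J + 3, m1 := m1, j0 := a,
            hk := by norm_num at hk; omega
            hd := hd
            hq := ha0
            hM := ha0
            hj0 := ha0
            hj0J := ?_
            hn1 := ?_
            hJk := by omega
            hL := Nat.lt_succ_of_le (Nat.le_add_left _ _)
            hn := ParEx2_hn ha h4 hU
            hu := ?_
            hst := ?_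
            c1 := ?_
            c1' := ?_
            c2 := ?_
            c3 := ?_
            c4 := ?_
            c5 := ?_
            c6 := ?_
            c7 := ?_
            c8 := ?_ }, ?_, ?_, ?_, ?_⟩
  · zify
    linarith
  · have : 0 < a ^ 3 := by positivity
    omega
  · zify
    linarith
  · zify
    nlinarith
  · zify
    have : (4 : ℤ) * (a : ℤ) ^ 3 ≤ d := by exact_mod_cast hd4
    linarith
  · zify
    have : (4 : ℤ) * (a : ℤ) ^ 3 ≤ d := by exact_mod_cast hd4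
    linarith
  · zify
    have e1 : (2 : ℤ) * a * a * a = 2 * (a : ℤ) ^ 3 := by ring
    have e2 : (a : ℤ) * (8 * a + 3) = 8 * (a : ℤ) ^ 2 + 3 * a := by ring
    rw [e1, e2]
    linarith
  · have e1 : U + 4 * J + 3 - 1 = U + 4 * J + 2 := by omega
    have e2 : k - 1 - 4 * J = R := by omega
    have e3 : k - 1 = 4 * J + R := by omega
    rw [e1, e2, e3]
    zify
    have e4 : (R : ℤ) = U + 8 * (a : ℤ) ^ 3 - 4 * J - 1 := by linarith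
    rw [e4]
    have e5 : 0 ≤ (4 * (J : ℤ) + 1) * (8 * (a : ℤ) ^ 3 - 4 * J - 2) :=
      mul_nonneg (by positivity) (by linarith)
    linarith
  · zify
    linarith
  · zify
    have e1 : 0 ≤ (a : ℤ) * (m1 + 2 - (U + 4 * J + 3) - 2 * (a : ℤ) ^ 2 - 2 * (a : ℤ) ^ 3) :=
      mul_nonneg (by linarith) (by linarith)
    linarith
  · have e3 : k - 1 = 4 * J + R := by omega
    rw [e3]
    zify
    have e1 : 0 ≤ (4 * (J : ℤ) + R) * (m1 - U - 2 - 4 * J - 1) :=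
      mul_nonneg (by positivity) (by linarith)
    have e2 : 0 ≤ (J : ℤ) * (4 * J + R - (U + 4 * J + 3 + 2 * (a : ℤ) ^ 2)) :=
      mul_nonneg (by positivity) (by linarith)
    linarith
  · zify
    have e1 : (a : ℤ) * a = (a : ℤ) ^ 2 := by ring
    rw [e1]
    linarith
  · obtain ⟨J1, hJ1'⟩ : ∃ J1, J = J1 + 1 := ⟨J' + 6 * a ^ 2, hJ⟩
    have e1 : J - 1 = J1 := by omega
    have e2 : 2 * k + 2 - m1 = k + 3 + a ^ 2 + 3 * a := by omega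
    have e3 : k - 1 = 4 * J + R := by omega
    rw [e1, e2, e3]
    zify
    have e4 : (J1 : ℤ) = J - 1 := by
      have : (J : ℤ) = J1 + 1 := by exact_mod_cast hJ1'
      linarith
    have e5 : (4 * (J : ℤ) + R) = k - 1 := by linarith
    rw [e4, e5]
    have e6 : (a : ℤ) * J' + a = a * (J' + 1) := by ring
    have e7 : (a : ℤ) * J = a * J' + 6 * (a : ℤ) ^ 3 + a := by
      rw [hJZ]
      ring
    have e8 := ParEx2_c8 haZ h4Z h4Z' (Y := (a : ℤ) * J) (by linarith) (by linarith)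
    have e9 : (a : ℤ) * a * (2 * J * (J - 1)) = 2 * (a * J * (a * J - a)) := by ring
    have e10 : (a : ℤ) * a * ((k - 1) * J) = a * ((k - 1) * (a * J)) := by ring
    rw [e9, e10]
    exact e8
  · show ((2 * (8 * a ^ 3 + 64 * a ^ 2) + 1 + J * a : ℕ) : ℝ) ≤ _
    have e1 : (2 * (8 * (a : ℤ) ^ 3 + 64 * (a : ℤ) ^ 2) + 1 + J * a) ≤ k + 27 * (a : ℤ) ^ 3 := by
      have e7 : (J : ℤ) * a = a * J' + 6 * (a : ℤ) ^ 3 + a := by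
        rw [hJZ]
        ring
      rw [e7]
      linarith
    have e2 : (2 * (8 * a ^ 3 + 64 * a ^ 2) + 1 + J * a) ≤ k + 27 * a ^ 3 := by exact_mod_cast e1
    have e3 : ((2 * (8 * a ^ 3 + 64 * a ^ 2) + 1 + J * a : ℕ) : ℝ) ≤ k + 27 * (a : ℝ) ^ 3 := by
      exact_mod_cast e2
    linarith
  · zify
    have e1 : 0 ≤ (a : ℤ) ^ 2 * (((a : ℤ) - 8) * ((a : ℤ) - 24)) :=
      mul_nonneg (by positivity) (mul_nonneg (by linarith) (by linarith))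
    linarith
  · zify
    have e1 : 0 ≤ (a : ℤ) * (m1 + 2 - (U + 4 * J + 3) - 2 * (a : ℤ) ^ 2 - 2 * (a : ℤ) ^ 3) :=
      mul_nonneg (by linarith) (by linarith)
    linarith
  · exact Nat.lt_succ_of_le (Nat.le_add_right _ _)

end HWar
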