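import Mathlib

/-!
# HWar.TestPoly: testing a relation between power sums with polynomials `z ^ m ∏ (z - z_j)`
-/

namespace HWar

open Finset

/-- If the weighted power sums with exponents `m, ..., N` are at most `E`, then so are the sums over
the polynomials `z ^ m ∏ (z - z_j)` of degree at most `N`, up to `∏ (1 + |z_j|)`. -/
theorem test_poly {ι κ : Type*} (s : Finset ι) (ω x : ι → ℝ) (z : κ → ℝ) {E : ℝ} {N : ℕ}
    (K : Finset κ) : ∀ m : ℕ, m + K.card ≤ N →
    (∀ m', m ≤ m' → m' ≤ N → |∑ i ∈ s, ω i * x i ^ m'| ≤ E) →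
    |∑ i ∈ s, ω i * (x i ^ m * ∏ j ∈ K, (x i - z j))| ≤ E * ∏ j ∈ K, (1 + |z j|) := by
  classical
  induction K using Finset.induction_on with
  | empty =>
    intro m hm h
    simpa using h m le_rfl (by simpa using hm)
  | insert a K ha ih =>
    intro m hm h
    rw [Finset.card_insert_of_notMem ha] at hm
    rw [Finset.prod_insert ha]
    have h1 := ih (m + 1) (by omega) (fun m' h1 h2 => h m' (by omega) h2)
    have h2 := ih m (by omega) h
    have e : ∑ i ∈ s, ω i * (x i ^ m * ∏ j ∈ insert a K, (x i - z j)) =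
        (∑ i ∈ s, ω i * (x i ^ (m + 1) * ∏ j ∈ K, (x i - z j))) -
          z a * ∑ i ∈ s, ω i * (x i ^ m * ∏ j ∈ K, (x i - z j)) := by
      rw [Finset.mul_sum, ← Finset.sum_sub_distrib]
      refine Finset.sum_congr rfl fun i _ => ?_
      rw [Finset.prod_insert ha]
      ring
    rw [e]
    refine (abs_sub _ _).trans ?_
    rw [abs_mul]
    have h3 : |z a| * |∑ i ∈ s, ω i * (x i ^ m * ∏ j ∈ K, (x i - z j))| ≤
        |z a| * (E * ∏ j ∈ K, (1 + |z j|)) := mul_le_mul_of_nonneg_left h2 (abs_nonneg _)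
    linarith

/-- The value at one atom is bounded by the values at the others. -/
theorem test_target {ι κ : Type*} [DecidableEq ι] (s : Finset ι) (ω x : ι → ℝ) (z : κ → ℝ) {E : ℝ}
    {N m : ℕ} (K : Finset κ) (hm : m + K.card ≤ N)
    (h : ∀ m', m ≤ m' → m' ≤ N → |∑ i ∈ s, ω i * x i ^ m'| ≤ E) {t : ι} (ht : t ∈ s) :
    |ω t| * |x t ^ m * ∏ j ∈ K, (x t - z j)| ≤ E * ∏ j ∈ K, (1 + |z j|) +
      ∑ i ∈ s.erase t, |ω i| * |x i ^ m * ∏ j ∈ K, (x i - z j)| := by
  have h1 := test_poly s ω x z K m hm h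
  rw [← Finset.add_sum_erase s _ ht] at h1
  have h2 : |∑ i ∈ s.erase t, ω i * (x i ^ m * ∏ j ∈ K, (x i - z j))| ≤
      ∑ i ∈ s.erase t, |ω i| * |x i ^ m * ∏ j ∈ K, (x i - z j)| := by
    refine (Finset.abs_sum_le_sum_abs _ _).trans (le_of_eq ?_)
    exact Finset.sum_congr rfl fun i _ => abs_mul _ _
  rw [← abs_mul]
  have h3 : |ω t * (x t ^ m * ∏ j ∈ K, (x t - z j))| ≤
      |ω t * (x t ^ m * ∏ j ∈ K, (x t - z j)) +
        ∑ i ∈ s.erase t, ω i * (x i ^ m * ∏ j ∈ K, (x i - z j))| +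
      |∑ i ∈ s.erase t, ω i * (x i ^ m * ∏ j ∈ K, (x i - z j))| := by
    have := abs_sub (ω t * (x t ^ m * ∏ j ∈ K, (x t - z j)) +
        ∑ i ∈ s.erase t, ω i * (x i ^ m * ∏ j ∈ K, (x i - z j)))
      (∑ i ∈ s.erase t, ω i * (x i ^ m * ∏ j ∈ K, (x i - z j)))
    rwa [add_sub_cancel_right] at this
  linarith

end HWar
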